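import Mathlib
import Pool.Agent.D0H44.EL.Inner

/-! Project EM (lower bounds for the variance of primes in progressions to EVERY modulus
`q ≤ X ^ (1 - ε)`): definitions and statements of the packages. -/

open Finset MeasureTheory

namespace Pool.Agent.D0H44.EM

open H343 (ex)
open Pool.Agent.D0H44.EL

/-- `ψ(u; q, a)` -/
noncomputable def ps (q a : ℕ) (u : ℝ) : ℝ :=
  ∑ n ∈ (Icc 1 ⌊u⌋₊).filter (fun n => n ≡ a [MOD q]), ArithmeticFunction.vonMangoldt n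

/-- the error term -/
noncomputable def Er (q a : ℕ) (u : ℝ) : ℝ := ps q a u - u / (Nat.totient q : ℝ)

/-- the reduced residue classes -/
def red (q : ℕ) : Finset ℕ := (range q).filter (fun a => a.Coprime q)

/-- the derivative of the tent `kt m D` -/
noncomputable def kd (m D x : ℝ) : ℝ :=
  if x < m - D then 0 else if x ≤ m then 1 / D else if x ≤ m + D then -(1 / D) else 0

/-- the derivative of `gt m D N` (tent times `e(x / N)`) -/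
noncomputable def gd (m D : ℝ) (N : ℕ) (x : ℝ) : ℂ :=
  ((kd m D x : ℝ) : ℂ) * ex (x / N) +
    ((kt m D x : ℝ) : ℂ) * (((2 * Real.pi / N : ℝ) : ℂ) * Complex.I * ex (x / N))

/-- the exponential sum with the tent at `j / r` -/
noncomputable def Aj (M : ℕ) (m D : ℝ) (r j : ℕ) : ℂ :=
  ∑ n ∈ Icc 1 M, ((ArithmeticFunction.vonMangoldt n : ℝ) : ℂ) * ex (((n * j : ℕ) : ℝ) / r) *
    ((kt m D n : ℝ) : ℂ)

/-- the inner product of the error terms with the test function attached to the prime `r`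
(`c r ≡ -1 (mod q)`) -/
noncomputable def J (m D : ℝ) (q r c : ℕ) : ℂ :=
  ∑ a ∈ red q, ∫ x in (m - D)..(m + D), ((Er q a x : ℝ) : ℂ) *
    (ex (((a * c : ℕ) : ℝ) / q) * gd m D (r * q) x)

/-- package EXP: expansion into characters mod `r` at the point `j / r`. Copy `EL.CE_expand`
(file `Pool/Agent/D0H44/EL/Ces.lean`; there `j = 1`; now use it with `n * j` in place of `n` in
the pointwise identity, and `‖χ j‖ = 1`) and `EL.Ah_Mh`, `EL.Ah_eq`, `EL.CE_rp` (file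
`Inner.lean`, with `h = 0`). -/
def S_EXP : Prop := ∀ (r : ℕ), r.Prime → ∀ (j : ℕ), j.Coprime r → ∀ (M : ℕ) (m D : ℝ),
  0 < D → 1 ≤ m - D → m + D ≤ M →
  ‖((r : ℂ) - 1) * Aj M m D r j + (Mh M m D 0 : ℂ)‖ ≤
    (TT r (m + D) + 2 * TT r m + TT r (m - D)) / D

/-- package NRM: the norm of the test functions. Adapt `EL.norm_sq_int` (file `Nrm.lean`): expand
the square, sum over `a` first: `∑_{a < q} e(a (c_r - c_s) / q)` is `q` if `c_r ≡ c_s (mod q)` and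
`0` otherwise; `c_r ≡ c_s` forces `r ≡ s (mod q)` (because `c_r r ≡ -1 ≡ c_s s`), hence for
`r ≠ s` `|1 / (r q) - 1 / (s q)| ≥ 1 / (r s) ≥ 1 / (4 R ^ 2)` and the integral is at most
`4 R ^ 2 / π` (`EL.ex_int_le`). -/
def S_NRM : Prop := ∀ (q : ℕ) (G : Finset ℕ) (R : ℕ) (c : ℕ → ℕ) (b : ℕ → ℂ) (X : ℝ), 1 ≤ q →
  (∀ r ∈ G, R < r ∧ r ≤ 2 * R) → (∀ r ∈ G, q ∣ c r * r + 1) → (∀ r ∈ G, ‖b r‖ ≤ 1) → 0 ≤ X →
  ∑ a ∈ range q, ∫ x in (0 : ℝ)..X,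
    ‖∑ r ∈ G, b r * (ex (((a * c r : ℕ) : ℝ) / q) * ex (x / ((r * q : ℕ) : ℝ)))‖ ^ 2 ≤
    q * (G.card * (X + G.card * (4 * (R : ℝ) ^ 2)))

/-- package IBP: integration by parts with the tent. `gt m D N` is continuous, and has the
derivative `gd m D N x` away from `m - D`, `m`, `m + D`; it vanishes outside `[m - D, m + D]`. -/
def S_IBP : Prop := ∀ (m D : ℝ) (N : ℕ), 0 < D → 1 ≤ N →
  (∀ v : ℝ, m - D ≤ v → v ≤ m + D → ∫ x in v..(m + D), gd m D N x = -gt m D N v) ∧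
  (∫ x in (m - D)..(m + D), ((x : ℝ) : ℂ) * gd m D N x = -∫ x in (m - D)..(m + D), gt m D N x) ∧
  (∀ u v : ℝ, IntervalIntegrable (gd m D N) volume u v)

/-- package PRD: the inner product. For each reduced class `a`, `ps q a x` on `[m - D, m + D]` is
the sum over `n ∈ Icc 1 M`, `n ≡ a`, of `Λ(n) 1_{n ≤ x}`; by IBP `∫ 1_{n ≤ x} gd = - gt n` (also
when `n < m - D` or `n > m + D`, where both sides are `0`), and
`∫ (x / φ(q)) gd = - (1 / φ(q)) ∫ gt`, `‖∫ gt‖ ≤ N ^ 2 / (4 D)` (`EL.gt_int`, `EL.gt_left`,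
`EL.gt_right`); the sum over the reduced classes of `e(a c / q)` is `μ(q)`; and
`e(n c / q) e(n / (r q)) = e(n j / r)` as `c r + 1 = j q`. -/
def S_PRD : Prop := ∀ (q r c j M : ℕ) (m D : ℝ), 1 ≤ q → 1 ≤ r → c.Coprime q →
  c * r + 1 = j * q → 0 < D → 1 ≤ m - D → m + D ≤ M →
  ‖J m D q r c + ∑ n ∈ (Icc 1 M).filter (fun n => n.Coprime q),
    ((ArithmeticFunction.vonMangoldt n : ℝ) : ℂ) * ex (((n * j : ℕ) : ℝ) / r) *
      ((kt m D n : ℝ) : ℂ)‖ ≤ ((r * q : ℕ) : ℝ) ^ 2 / (4 * D) / (Nat.totient q : ℝ)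

/-- package DUA: duality, given NRM. Adapt `EL.dual_sum` (file `CS.lean`): take phases `b r` with
`b r * J r = ‖J r‖`; `∑ ‖J r‖ = ∑_a ∫ Er q a x F_a(x) dx` with
`F_a = ∑_r b r e(a c_r / q) gd m D (r q)`; `‖F_a‖ ^ 2 ≤ (2 / D ^ 2) ‖P_a‖ ^ 2 +
(8 π ^ 2 / (R q) ^ 2) ‖P'_a‖ ^ 2` with two sums to which NRM applies (coefficients `b r` and
`b r R / r`), `|kd| ≤ 1 / D`, `0 ≤ kt ≤ 1`. -/
def S_DUA : Prop := ∀ (q : ℕ) (G : Finset ℕ) (R : ℕ) (c : ℕ → ℕ) (m D X : ℝ), 1 ≤ q → 1 ≤ R →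
  (∀ r ∈ G, R < r ∧ r ≤ 2 * R) → (∀ r ∈ G, q ∣ c r * r + 1) → 0 < D → 0 ≤ m - D → m + D ≤ X →
  (∑ r ∈ G, ‖J m D q r (c r)‖) ^ 2 ≤ (∑ a ∈ red q, ∫ x in (m - D)..(m + D), Er q a x ^ 2) *
    ((2 / D ^ 2 + 80 / ((R : ℝ) * q) ^ 2) * (q * (G.card * (X + G.card * (4 * (R : ℝ) ^ 2)))))

end Pool.Agent.D0H44.EM
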