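import Mathlib
import Pool.Agent.D0H44.EL.Bds
import Pool.Agent.D0H44.EM.Stm

/-! Sums over the characters, for all sizes of the moduli. -/

open Finset MeasureTheory

namespace Pool.Agent.D0H44.EM

open H343 (ex)
open Pool.Agent.D0H44.EL
open Pool.Agent.H398R2.BV Pool.Agent.H410R2

/-- the sums over the characters -/
theorem Bb (a Q : ℕ) (t L X y : ℝ) (hX : X = t ^ (6 * a + 144))
    (hL1 : 1 ≤ L) (hLX : L = 1 + Real.log X) (hLt : 10 ^ 6 * L ^ 6 ≤ t)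
    (hQ0 : t ^ 4 ≤ Q) (hQ : (Q : ℝ) ≤ t ^ (2 * a))
    (hy1 : 1 ≤ y) (hyX : y ≤ X) :
    ∑ f ∈ Icc 2 (2 * Q), ∑ ψ ∈ Prim f, ‖psiLog y f ψ‖ ≤ Real.sqrt Q * t ^ (6 * a + 143) := by
  have ht6 : (10 : ℝ) ^ 6 ≤ t := by
    have : (1 : ℝ) ≤ L ^ 6 := one_le_pow₀ hL1
    linarith
  have ht1 : (1 : ℝ) ≤ t := by linarith
  have ht0 : 0 < t := by linarith
  have hQr : (1 : ℝ) ≤ Q := (one_le_pow₀ ht1).trans hQ0
  have hQ1 : 1 ≤ Q := by exact_mod_cast hQr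
  have hX1 : 1 ≤ X := hy1.trans hyX
  obtain ⟨U, hU1, hU2⟩ : ∃ U : ℕ, t ^ (2 * a + 48) ≤ U ∧ (U : ℝ) ≤ 2 * t ^ (2 * a + 48) := by
    refine ⟨⌈t ^ (2 * a + 48)⌉₊, Nat.le_ceil _, ?_⟩
    have h1 := Nat.ceil_lt_add_one (by positivity : 0 ≤ t ^ (2 * a + 48))
    have h2 : 1 ≤ t ^ (2 * a + 48) := one_le_pow₀ ht1
    linarith
  have hUr : (1 : ℝ) ≤ U := (one_le_pow₀ ht1).trans hU1
  have hU : 1 ≤ U := by exact_mod_cast hUr
  have h := eng y hy1 U (2 * Q) hU (by omega)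
  refine h.trans ?_
  push_cast
  obtain ⟨σ, hσ⟩ : ∃ σ : ℝ, σ = Real.sqrt Q := ⟨_, rfl⟩
  have hσ2 : σ ^ 2 = Q := by rw [hσ, Real.sq_sqrt (by linarith)]
  have hσ0 : 0 ≤ σ := by rw [hσ]; exact Real.sqrt_nonneg _
  have hσa : σ ≤ t ^ a := by
    rw [hσ, Real.sqrt_le_left (by positivity)]
    have : (t ^ a) ^ 2 = t ^ (2 * a) := by ring
    rw [this]
    exact hQ
  have hσt : t ^ 2 ≤ σ := by
    rw [hσ]
    apply Real.le_sqrt_of_sq_le
    calc (t ^ 2) ^ 2 = t ^ 4 := by ring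
      _ ≤ _ := hQ0
  rw [← hσ]
  have hsq : Real.sqrt (2 * Q) ≤ 2 * σ := by
    rw [Real.sqrt_le_left (by positivity)]
    have : (2 * σ) ^ 2 = 4 * (Q : ℝ) := by rw [← hσ2]; ring
    rw [this]
    linarith
  have hsy : Real.sqrt y ≤ t ^ (3 * a + 72) := by
    rw [Real.sqrt_le_left (by positivity)]
    have : (t ^ (3 * a + 72)) ^ 2 = t ^ (6 * a + 144) := by ring
    rw [this, ← hX]
    exact hyX
  have hsyU : Real.sqrt (y / U) ≤ t ^ (2 * a + 48) := by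
    rw [Real.sqrt_le_left (by positivity), div_le_iff₀ (by linarith)]
    have h1 : (t ^ (2 * a + 48)) ^ 2 * t ^ (2 * a + 48) = t ^ (6 * a + 144) := by ring
    calc y ≤ t ^ (6 * a + 144) := by rw [← hX]; exact hyX
      _ = (t ^ (2 * a + 48)) ^ 2 * t ^ (2 * a + 48) := h1.symm
      _ ≤ _ := by gcongr
  have hly : Real.log y ≤ L := by
    have := Real.log_le_log (by linarith) hyX
    linarith
  have hly1 : 1 + Real.log y ≤ L := by
    have := Real.log_le_log (by linarith) hyX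
    linarith
  have hly0 : 0 ≤ Real.log y := Real.log_nonneg hy1
  have hQX : 2 * (Q : ℝ) ≤ X := by
    rw [hX]
    calc 2 * (Q : ℝ) ≤ t * t ^ (2 * a) := by
          apply mul_le_mul (by linarith) hQ (by positivity) ht0.le
      _ = t ^ (2 * a + 1) := by ring
      _ ≤ _ := pow_le_pow_right₀ ht1 (by omega)
  have hlQ : 1 + Real.log (2 * Q) ≤ L := by
    have := Real.log_le_log (by linarith) hQX
    linarith
  have hlQ0 : 0 ≤ Real.log (2 * Q) := Real.log_nonneg (by linarith)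
  have p1 : (2 * Q : ℝ) ^ 2 * (8 * U * (Real.sqrt (2 * Q) * (1 + Real.log (2 * Q))) *
      Real.log y ^ 2) ≤ (2 * Q : ℝ) ^ 2 * (8 * (2 * t ^ (2 * a + 48)) *
        ((2 * σ) * L) * L ^ 2) := by
    gcongr
  have p2 : 12 * (Real.sqrt y + 2 * Q * (2 * Real.sqrt (y / U) + U) + (2 * Q : ℝ) ^ 2) *
      (Real.sqrt y * (1 + Real.log y) ^ 4) ≤
      12 * (t ^ (3 * a + 72) + 2 * Q * (2 * t ^ (2 * a + 48) + 2 * t ^ (2 * a + 48)) +
        (2 * Q : ℝ) ^ 2) * (t ^ (3 * a + 72) * L ^ 4) := by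
    gcongr
  have e1 : (2 * Q : ℝ) ^ 2 * (8 * (2 * t ^ (2 * a + 48)) * ((2 * σ) * L) * L ^ 2) =
      128 * σ * (σ ^ 4 * t ^ (2 * a + 48)) * L ^ 3 := by rw [← hσ2]; ring
  have e2 : 12 * (t ^ (3 * a + 72) + 2 * Q * (2 * t ^ (2 * a + 48) + 2 * t ^ (2 * a + 48)) +
        (2 * Q : ℝ) ^ 2) * (t ^ (3 * a + 72) * L ^ 4) =
      12 * (t ^ (6 * a + 144) + 8 * σ * (σ * t ^ (5 * a + 120)) +
        4 * σ * (σ ^ 3 * t ^ (3 * a + 72))) * L ^ 4 := by rw [← hσ2]; ring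
  have q1 : σ ^ 4 * t ^ (2 * a + 48) ≤ t ^ (6 * a + 142) := by
    calc σ ^ 4 * t ^ (2 * a + 48) ≤ (t ^ a) ^ 4 * t ^ (2 * a + 48) := by gcongr
      _ = t ^ (6 * a + 48) := by ring
      _ ≤ _ := pow_le_pow_right₀ ht1 (by omega)
  have q2 : t ^ (6 * a + 144) ≤ σ * t ^ (6 * a + 142) := by
    calc t ^ (6 * a + 144) = t ^ 2 * t ^ (6 * a + 142) := by ring
      _ ≤ _ := by gcongr
  have q3 : σ * t ^ (5 * a + 120) ≤ t ^ (6 * a + 142) := by
    calc σ * t ^ (5 * a + 120) ≤ t ^ a * t ^ (5 * a + 120) := by gcongr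
      _ = t ^ (6 * a + 120) := by ring
      _ ≤ _ := pow_le_pow_right₀ ht1 (by omega)
  have q4 : σ ^ 3 * t ^ (3 * a + 72) ≤ t ^ (6 * a + 142) := by
    calc σ ^ 3 * t ^ (3 * a + 72) ≤ (t ^ a) ^ 3 * t ^ (3 * a + 72) := by gcongr
      _ = t ^ (6 * a + 72) := by ring
      _ ≤ _ := pow_le_pow_right₀ ht1 (by omega)
  have q5 : 284 * L ^ 4 ≤ t := by
    have : L ^ 4 ≤ L ^ 6 := pow_le_pow_right₀ hL1 (by omega)
    have : 0 ≤ L ^ 6 := by positivity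
    linarith
  have q6 : L ^ 3 ≤ L ^ 4 := pow_le_pow_right₀ hL1 (by omega)
  calc _ ≤ 128 * σ * (σ ^ 4 * t ^ (2 * a + 48)) * L ^ 3 + 12 * (t ^ (6 * a + 144) +
        8 * σ * (σ * t ^ (5 * a + 120)) + 4 * σ * (σ ^ 3 * t ^ (3 * a + 72))) * L ^ 4 := by
        rw [← e1, ← e2]
        exact add_le_add p1 p2
    _ ≤ 128 * σ * t ^ (6 * a + 142) * L ^ 4 + 12 * (σ * t ^ (6 * a + 142) +
        8 * σ * t ^ (6 * a + 142) + 4 * σ * t ^ (6 * a + 142)) * L ^ 4 := by gcongr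
    _ = σ * t ^ (6 * a + 142) * (284 * L ^ 4) := by ring
    _ ≤ σ * t ^ (6 * a + 142) * t := by gcongr
    _ = _ := by ring

/-- counting the primes that do not divide `q` -/
theorem cnt : ∃ R₀ : ℕ, 1 ≤ R₀ ∧ ∀ (R q : ℕ) (L : ℝ), R₀ ≤ R → 1 ≤ q → 1 + Real.log (2 * R) ≤ L →
    1 + Real.log q ≤ L → 8 * L ^ 2 ≤ R →
    (R : ℝ) / (4 * L) ≤ ((Ioc R (2 * R)).filter (fun r : ℕ => r.Prime ∧ ¬ r ∣ q)).card := by
  obtain ⟨R₀, hR₀, h⟩ := primes_dyadic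
  refine ⟨R₀, hR₀, fun R q L hR hq h1 h2 h3 => ?_⟩
  have hR1 : 1 ≤ R := hR₀.trans hR
  have hRr : (1 : ℝ) ≤ R := by exact_mod_cast hR1
  have hlog0 : 0 ≤ Real.log (2 * R) := Real.log_nonneg (by linarith)
  have hL1 : 1 ≤ L := by linarith
  have hp := h R hR
  set P := (Ioc R (2 * R)).filter Nat.Prime with hP
  set G := (Ioc R (2 * R)).filter (fun r : ℕ => r.Prime ∧ ¬ r ∣ q) with hG
  have hcard : P.card ≤ G.card + q.primeFactors.card := by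
    refine le_trans (card_le_card ?_) (card_union_le G q.primeFactors)
    intro r hr
    rw [hP, mem_filter] at hr
    rw [mem_union, hG, mem_filter, Nat.mem_primeFactors]
    by_cases hc : r ∣ q
    · exact Or.inr ⟨hr.2, hc, by omega⟩
    · exact Or.inl ⟨hr.1, hr.2, hc⟩
  have hcard' : (P.card : ℝ) ≤ G.card + q.primeFactors.card := by exact_mod_cast hcard
  have hω := omega_le_log q hq
  have hP1 : (R : ℝ) / 2 ≤ P.card * L := by
    refine hp.trans ?_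
    gcongr
    linarith
  have hP2 : (R : ℝ) / (2 * L) ≤ P.card := by
    rw [div_le_iff₀ (by linarith)]
    linarith
  have hB1 : 2 * L ≤ R / (4 * L) := by
    rw [le_div_iff₀ (by linarith)]
    nlinarith
  have e1 : (R : ℝ) / (2 * L) = 2 * (R / (4 * L)) := by
    field_simp
    norm_num
  rw [e1] at hP2
  linarith

end Pool.Agent.D0H44.EM
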