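import Mathlib
import Pool.Agent.D0H44.EM.Stm

/-! The expansion into characters at the point `j / r`. -/

open Finset MeasureTheory

namespace Pool.Agent.D0H44.EM

open H343 (ex)
open Pool.Agent.D0H44.EL
open Pool.Agent.H398R2.BV Pool.Agent.H410R2

/-- the exponential sum at `j / q` -/
noncomputable def CEj (q j : ℕ) (Y : ℝ) : ℂ :=
  ∑ n ∈ Icc 1 ⌊Y⌋₊, ((ArithmeticFunction.vonMangoldt n : ℝ) : ℂ) *
    H343.ex (((n * j : ℕ) : ℝ) / q) * ((Y - n : ℝ) : ℂ)

/-- the expansion into characters -/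
theorem CEj_expand {q : ℕ} (hq : q.Prime) (j : ℕ) (hj : j.Coprime q) (Y : ℝ) (hY : 1 ≤ Y) :
    ‖((q : ℂ) - 1) * CEj q j Y + (C0 Y : ℂ)‖ ≤
      Real.sqrt q * ∑ χ ∈ Prim q, ‖CX Y q χ‖ + q * (Y * Real.log Y) := by
  classical
  have : NeZero q := ⟨hq.ne_zero⟩
  have hY0 : 0 < Y := by linarith
  have hq2 := hq.two_le
  have hmu : ((ArithmeticFunction.moebius q : ℤ) : ℂ) = -1 := by
    rw [ArithmeticFunction.moebius_apply_prime hq]
    norm_num
  have hju : IsUnit (j : ZMod q) := (ZMod.isUnit_iff_coprime j q).mpr hj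
  -- pointwise
  have hpt : ∀ n : ℕ, ((q : ℂ) - 1) * H343.ex (((n * j : ℕ) : ℝ) / q) + 1 =
      ∑ χ ∈ Prim q, H343.GS χ⁻¹ * (χ (j : ZMod q) * χ (n : ZMod q)) +
        (if n.Coprime q then 0 else (q : ℂ)) := by
    intro n
    have hset : (univ : Finset (DirichletCharacter ℂ q)) = insert 1 (Prim q) := by
      ext χ
      simp only [mem_univ, mem_insert, true_iff]
      by_cases h : χ = 1
      · exact Or.inl h
      · right
        unfold Prim
        rw [mem_filter]
        exact ⟨mem_univ _, prim_of_prime hq χ h⟩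
    have hnot : (1 : DirichletCharacter ℂ q) ∉ Prim q := by
      intro h
      exact prim_ne_one hq2 h rfl
    by_cases hn : n.Coprime q
    · rw [if_pos hn, add_zero]
      have hnj : (n * j).Coprime q := Nat.Coprime.mul_left hn hj
      have h1 := H343.GS_expand q (n * j) hq.one_le hnj
      rw [hset, sum_insert hnot, Nat.totient_prime hq] at h1
      rw [inv_one, H343.GS_one q hq.one_le, hmu] at h1
      have h2 : (1 : DirichletCharacter ℂ q) ((n * j : ℕ) : ZMod q) = 1 := by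
        apply MulChar.one_apply
        rw [ZMod.isUnit_iff_coprime]
        exact hnj
      rw [h2, Nat.cast_sub hq.one_le, Nat.cast_one] at h1
      rw [h1]
      have h3 : ∑ x ∈ Prim q, x ((n * j : ℕ) : ZMod q) * H343.GS x⁻¹ =
          ∑ x ∈ Prim q, H343.GS x⁻¹ * (x (j : ZMod q) * x (n : ZMod q)) := by
        apply sum_congr rfl
        intro x _
        push_cast
        rw [map_mul]
        ring
      rw [h3]
      ring
    · rw [if_neg hn]
      have hdvd : q ∣ n := by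
        by_contra h
        exact hn ((Nat.Prime.coprime_iff_not_dvd hq).2 h).symm
      obtain ⟨k, rfl⟩ := hdvd
      have h1 : ∀ χ ∈ Prim q, H343.GS χ⁻¹ * (χ (j : ZMod q) * χ ((q * k : ℕ) : ZMod q)) = 0 := by
        intro χ _
        have : ¬ IsUnit ((q * k : ℕ) : ZMod q) := by
          rw [ZMod.isUnit_iff_coprime]
          exact hn
        rw [MulChar.map_nonunit χ this, mul_zero, mul_zero]
      rw [sum_eq_zero h1]
      have h2 : ((q * k * j : ℕ) : ℝ) / q = ((k * j : ℕ) : ℝ) := by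
        have : (q : ℝ) ≠ 0 := by exact_mod_cast hq.ne_zero
        push_cast
        field_simp
      rw [h2, H343.Gauss.ex_nat]
      ring
  have h1 : ((q : ℂ) - 1) * CEj q j Y + (C0 Y : ℂ) =
      ∑ χ ∈ Prim q, H343.GS χ⁻¹ * (χ (j : ZMod q) * CX Y q χ) +
      (q : ℂ) * ∑ n ∈ (Icc 1 ⌊Y⌋₊).filter (fun n => ¬ n.Coprime q),
        ((ArithmeticFunction.vonMangoldt n * (Y - n) : ℝ) : ℂ) := by
    have e1 : ∑ χ ∈ Prim q, H343.GS χ⁻¹ * (χ (j : ZMod q) * CX Y q χ) = ∑ n ∈ Icc 1 ⌊Y⌋₊,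
        ((ArithmeticFunction.vonMangoldt n * (Y - n) : ℝ) : ℂ) *
          ∑ χ ∈ Prim q, H343.GS χ⁻¹ * (χ (j : ZMod q) * χ (n : ZMod q)) := by
      unfold CX
      simp_rw [mul_sum]
      rw [sum_comm]
      apply sum_congr rfl
      intro n _
      apply sum_congr rfl
      intro χ _
      push_cast
      ring
    rw [e1, sum_filter, mul_sum, ← sum_add_distrib]
    unfold CEj C0
    rw [Complex.ofReal_sum, mul_sum, ← sum_add_distrib]
    apply sum_congr rfl
    intro n _
    have h2 := hpt n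
    have h3 : ∑ χ ∈ Prim q, H343.GS χ⁻¹ * (χ (j : ZMod q) * χ (n : ZMod q)) =
        ((q : ℂ) - 1) * H343.ex (((n * j : ℕ) : ℝ) / q) + 1
        - (if n.Coprime q then 0 else (q : ℂ)) := by
      rw [h2]; ring
    rw [h3]
    by_cases hn : n.Coprime q
    · rw [if_pos hn, if_neg (not_not.2 hn)]
      push_cast
      ring
    · rw [if_neg hn, if_pos hn]
      push_cast
      ring
  rw [h1]
  refine (norm_add_le _ _).trans (add_le_add ?_ ?_)
  · refine (norm_sum_le _ _).trans ?_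
    rw [mul_sum]
    apply sum_le_sum
    intro χ hχ
    have hprim : χ.IsPrimitive := by
      unfold Prim at hχ
      rw [mem_filter] at hχ
      exact hχ.2
    have hinv : (χ⁻¹).IsPrimitive := by
      rw [DirichletCharacter.isPrimitive_def, DirichletCharacter.conductor_inv]
      exact hprim
    have hj1 : ‖χ (j : ZMod q)‖ = 1 := by
      obtain ⟨u, hu⟩ := hju
      rw [← hu]
      exact DirichletCharacter.unit_norm_eq_one χ u
    rw [norm_mul, norm_mul, hj1, one_mul, H343.GS_primitive q hq.one_le χ⁻¹ hinv]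
  · rw [norm_mul, Complex.norm_natCast]
    apply mul_le_mul_of_nonneg_left _ (by positivity)
    refine (norm_sum_le _ _).trans ?_
    have h2 := sum_not_coprime ⌊Y⌋₊ q hq.one_le
    rw [hq.primeFactors, card_singleton] at h2
    calc ∑ n ∈ (Icc 1 ⌊Y⌋₊).filter (fun n => ¬ n.Coprime q),
          ‖((ArithmeticFunction.vonMangoldt n * (Y - n) : ℝ) : ℂ)‖ ≤
        ∑ n ∈ (Icc 1 ⌊Y⌋₊).filter (fun n => ¬ n.Coprime q),
          ArithmeticFunction.vonMangoldt n * Y := by
          apply sum_le_sum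
          intro n hn
          rw [mem_filter, mem_Icc] at hn
          have hnY : (n : ℝ) ≤ Y := (Nat.le_floor_iff hY0.le).1 hn.1.2
          have hn0 : (0 : ℝ) ≤ n := Nat.cast_nonneg _
          rw [Complex.norm_real, Real.norm_of_nonneg
            (mul_nonneg ArithmeticFunction.vonMangoldt_nonneg (by linarith))]
          exact mul_le_mul_of_nonneg_left (by linarith) ArithmeticFunction.vonMangoldt_nonneg
      _ = (∑ n ∈ (Icc 1 ⌊Y⌋₊).filter (fun n => ¬ n.Coprime q),
          ArithmeticFunction.vonMangoldt n) * Y := by rw [sum_mul]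
      _ ≤ (1 * Real.log Y) * Y := by
          apply mul_le_mul_of_nonneg_right _ hY0.le
          refine h2.trans ?_
          push_cast
          rw [one_mul, one_mul]
          exact log_natCast_le _ _ hY (Nat.floor_le hY0.le)
      _ = Y * Real.log Y := by ring

theorem CEj_rp (M : ℕ) (q j : ℕ) (Y : ℝ) (hY : 0 ≤ Y) (hM : Y ≤ M) :
    ∑ n ∈ Icc 1 M, ((ArithmeticFunction.vonMangoldt n : ℝ) : ℂ) * ex (((n * j : ℕ) : ℝ) / q) *
      ((rp Y n : ℝ) : ℂ) = CEj q j Y := by
  unfold CEj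
  have hM' : ⌊Y⌋₊ ≤ M := Nat.floor_le_of_le hM
  symm
  rw [← sum_subset (Icc_subset_Icc_right hM')]
  · apply sum_congr rfl
    intro n hn
    rw [mem_Icc] at hn
    unfold rp
    rw [max_eq_left]
    have : (n : ℝ) ≤ Y := (Nat.le_floor_iff hY).1 hn.2
    linarith
  · intro n hn hn'
    rw [mem_Icc] at hn hn'
    have h1 : ¬ n ≤ ⌊Y⌋₊ := fun h => hn' ⟨hn.1, h⟩
    rw [Nat.le_floor_iff hY] at h1
    unfold rp
    rw [max_eq_right (by linarith)]
    simp

theorem Aj_eq (M : ℕ) (m D : ℝ) (q j : ℕ) (hD : 0 < D) (h1 : 0 ≤ m - D)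
    (h2 : m + D ≤ M) :
    Aj M m D q j = (1 / (D : ℂ)) * (CEj q j (m + D) - 2 * CEj q j m + CEj q j (m - D)) := by
  rw [← CEj_rp M q j (m + D) (by linarith) h2, ← CEj_rp M q j m (by linarith) (by linarith),
    ← CEj_rp M q j (m - D) h1 (by linarith)]
  unfold Aj kt
  simp_rw [mul_sum]
  rw [← sum_sub_distrib, ← sum_add_distrib, mul_sum]
  apply sum_congr rfl
  intro n _
  push_cast
  ring

theorem expp : S_EXP := by
  intro q hq j hj M m D hD h1 h2
  have hM0 := Mh_eq M m D 0 hD (by linarith) (by linarith)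
  rw [sub_zero, sub_zero, sub_zero] at hM0
  rw [Aj_eq M m D q j hD (by linarith) h2, hM0]
  have b1 := CEj_expand hq j hj (m + D) (by linarith)
  have b2 := CEj_expand hq j hj m (by linarith)
  have b3 := CEj_expand hq j hj (m - D) h1
  set X1 := ((q : ℂ) - 1) * CEj q j (m + D) + (C0 (m + D) : ℂ)
  set X2 := ((q : ℂ) - 1) * CEj q j m + (C0 m : ℂ) with hX2
  set X3 := ((q : ℂ) - 1) * CEj q j (m - D) + (C0 (m - D) : ℂ)
  have e : ((q : ℂ) - 1) * ((1 / (D : ℂ)) * (CEj q j (m + D) - 2 * CEj q j m +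
      CEj q j (m - D))) + (((1 / D) * (C0 (m + D) - 2 * C0 m + C0 (m - D)) : ℝ) : ℂ) =
      (1 / (D : ℂ)) * (X1 - 2 * X2 + X3) := by
    push_cast
    ring
  rw [e, norm_mul]
  have hn : ‖(1 / (D : ℂ))‖ = 1 / D := by
    rw [norm_div, norm_one, Complex.norm_real, Real.norm_of_nonneg hD.le]
  rw [hn]
  have t : ‖X1 - 2 * X2 + X3‖ ≤ TT q (m + D) + 2 * TT q m + TT q (m - D) := by
    calc _ ≤ ‖X1‖ + ‖2 * X2‖ + ‖X3‖ :=
          (norm_add_le _ _).trans (add_le_add_left (norm_sub_le _ _) _)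
      _ = ‖X1‖ + 2 * ‖X2‖ + ‖X3‖ := by
          rw [norm_mul]
          norm_num
      _ ≤ _ := by
          unfold TT
          linarith
  rw [one_div, inv_mul_eq_div]
  gcongr

end Pool.Agent.D0H44.EM
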