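import Mathlib
import Pool.Agent.D0H44.EM.Stm

/-! Integration by parts with the tent. -/

open Finset MeasureTheory

namespace Pool.Agent.D0H44.EM

open H343 (ex)
open Pool.Agent.D0H44.EL

theorem kd_meas (m D : ℝ) : Measurable (kd m D) := by
  unfold kd
  apply Measurable.ite (measurableSet_lt measurable_id measurable_const) measurable_const
  apply Measurable.ite (measurableSet_le measurable_id measurable_const) measurable_const
  apply Measurable.ite (measurableSet_le measurable_id measurable_const) measurable_const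
    measurable_const

theorem kd_abs (m D x : ℝ) (hD : 0 < D) : |kd m D x| ≤ 1 / D := by
  have h : 0 ≤ 1 / D := by positivity
  unfold kd
  split_ifs
  · simpa using h
  · rw [abs_of_nonneg h]
  · rw [abs_neg, abs_of_nonneg h]
  · simpa using h

theorem kt_deriv (m D x : ℝ) (hD : 0 < D) (h1 : x ≠ m - D) (h2 : x ≠ m) (h3 : x ≠ m + D) :
    HasDerivAt (kt m D) (kd m D x) x := by
  rcases lt_or_gt_of_ne h1 with a1 | a1
  · -- left of the support
    have e : kt m D =ᶠ[nhds x] fun _ => 0 := by
      filter_upwards [Iio_mem_nhds a1] with y hy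
      apply kt_zero m D y hD
      have hy' : y < m - D := hy
      rw [abs_of_nonpos (by linarith)]
      linarith
    have hk : kd m D x = 0 := by
      unfold kd
      rw [if_pos a1]
    rw [hk]
    exact (hasDerivAt_const x 0).congr_of_eventuallyEq e
  rcases lt_or_gt_of_ne h2 with a2 | a2
  · have e : kt m D =ᶠ[nhds x] fun y => 1 - (m - y) / D := by
      filter_upwards [Ioo_mem_nhds a1 a2] with y hy
      rw [kt_eq m D y hD, abs_of_nonpos (by linarith [hy.2])]
      rw [max_eq_left]
      · ring
      · have : -(y - m) / D ≤ 1 := by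
          rw [div_le_one hD]
          linarith [hy.1]
        linarith
    have hk : kd m D x = 1 / D := by
      unfold kd
      rw [if_neg (by linarith), if_pos a2.le]
    rw [hk]
    have h : HasDerivAt (fun y : ℝ => 1 - (m - y) / D) (1 / D) x := by
      have := (((hasDerivAt_id' x).const_sub m).div_const D).const_sub 1
      refine this.congr_deriv ?_
      ring
    exact h.congr_of_eventuallyEq e
  rcases lt_or_gt_of_ne h3 with a3 | a3
  · have e : kt m D =ᶠ[nhds x] fun y => 1 - (y - m) / D := by
      filter_upwards [Ioo_mem_nhds a2 a3] with y hy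
      rw [kt_eq m D y hD, abs_of_nonneg (by linarith [hy.1])]
      rw [max_eq_left]
      have : (y - m) / D ≤ 1 := by
        rw [div_le_one hD]
        linarith [hy.2]
      linarith
    have hk : kd m D x = -(1 / D) := by
      unfold kd
      rw [if_neg (by linarith), if_neg (by linarith), if_pos a3.le]
    rw [hk]
    have h : HasDerivAt (fun y : ℝ => 1 - (y - m) / D) (-(1 / D)) x := by
      have := (((hasDerivAt_id' x).sub_const m).div_const D).const_sub 1
      exact this
    exact h.congr_of_eventuallyEq e
  · have e : kt m D =ᶠ[nhds x] fun _ => 0 := by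
      filter_upwards [Ioi_mem_nhds a3] with y hy
      apply kt_zero m D y hD
      have hy' : m + D < y := hy
      rw [abs_of_nonneg (by linarith)]
      linarith
    have hk : kd m D x = 0 := by
      unfold kd
      rw [if_neg (by linarith), if_neg (by linarith), if_neg (by linarith)]
    rw [hk]
    exact (hasDerivAt_const x 0).congr_of_eventuallyEq e

theorem gt_deriv (m D : ℝ) (N : ℕ) (x : ℝ) (hD : 0 < D) (h1 : x ≠ m - D) (h2 : x ≠ m)
    (h3 : x ≠ m + D) : HasDerivAt (gt m D N) (gd m D N x) x := by
  unfold gt gd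
  have a := (kt_deriv m D x hD h1 h2 h3).ofReal_comp
  have b := ex_deriv N x
  exact HasDerivAt.fun_mul a b

theorem gd_meas (m D : ℝ) (N : ℕ) : Measurable (gd m D N) := by
  unfold gd
  have h1 : Measurable (fun x : ℝ => ex (x / N)) := (ex_cont N).measurable
  have h2 : Measurable (kt m D) := (kt_cont m D).measurable
  have h3 := kd_meas m D
  fun_prop

theorem gd_bound (m D : ℝ) (N : ℕ) (x : ℝ) (hD : 0 < D) :
    ‖gd m D N x‖ ≤ 1 / D + 2 * Real.pi / N := by
  unfold gd
  refine (norm_add_le _ _).trans ?_
  rw [norm_mul, norm_mul, norm_mul, norm_mul, Complex.norm_real, Complex.norm_real,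
    Complex.norm_real, Complex.norm_I, H343.Gauss.norm_ex, Real.norm_eq_abs, Real.norm_eq_abs,
    Real.norm_eq_abs, mul_one, mul_one, mul_one, abs_of_nonneg (kt_nonneg m D x hD)]
  apply add_le_add (kd_abs m D x hD)
  have h0 : 0 ≤ 2 * Real.pi / (N : ℝ) := by positivity
  rw [abs_of_nonneg h0]
  calc kt m D x * (2 * Real.pi / N) ≤ 1 * (2 * Real.pi / N) := by
        apply mul_le_mul_of_nonneg_right (kt_le_one m D x hD) h0
    _ = _ := one_mul _

theorem gd_ii (m D : ℝ) (N : ℕ) (hD : 0 < D) (u v : ℝ) :
    IntervalIntegrable (gd m D N) volume u v := by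
  rw [intervalIntegrable_iff]
  refine Measure.integrableOn_of_bounded (M := 1 / D + 2 * Real.pi / N) ?_
    (gd_meas m D N).aestronglyMeasurable ?_
  · rw [Set.uIoc]
    exact measure_Ioc_lt_top.ne
  · exact Filter.Eventually.of_forall fun x => gd_bound m D N x hD

theorem ibp : S_IBP := by
  intro m D N hD hN
  have hc : Set.Countable ({m - D, m, m + D} : Set ℝ) := by
    apply Set.Finite.countable
    simp
  have hne : ∀ x : ℝ, x ∉ ({m - D, m, m + D} : Set ℝ) → x ≠ m - D ∧ x ≠ m ∧ x ≠ m + D := by
    intro x hx
    simp only [Set.mem_insert_iff, Set.mem_singleton_iff, not_or] at hx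
    exact hx
  refine ⟨?_, ?_, gd_ii m D N hD⟩
  · intro v h1 h2
    rw [MeasureTheory.integral_eq_of_hasDerivAt_off_countable (gt m D N) (gd m D N) hc
      (gt_cont m D N).continuousOn ?_ (gd_ii m D N hD _ _), gt_right m D hD N, zero_sub]
    intro x hx
    obtain ⟨a1, a2, a3⟩ := hne x hx.2
    exact gt_deriv m D N x hD a1 a2 a3
  · have hid : ∀ u v : ℝ, IntervalIntegrable (fun x : ℝ => ((x : ℝ) : ℂ) * gd m D N x)
        volume u v := by
      intro u v
      apply (gd_ii m D N hD u v).continuousOn_mul
      exact Complex.continuous_ofReal.continuousOn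
    have hgi : ∀ u v : ℝ, IntervalIntegrable (gt m D N) volume u v := fun u v =>
      (gt_cont m D N).intervalIntegrable u v
    have h := MeasureTheory.integral_eq_of_hasDerivAt_off_countable
      (fun x : ℝ => ((x : ℝ) : ℂ) * gt m D N x) (fun x : ℝ => gt m D N x + ((x : ℝ) : ℂ) * gd m D N x)
      (a := m - D) (b := m + D) hc
      ((Complex.continuous_ofReal.mul (gt_cont m D N)).continuousOn) ?_
      ((hgi _ _).add (hid _ _))
    · rw [intervalIntegral.integral_add (hgi _ _) (hid _ _), gt_right m D hD N, gt_left m D hD N,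
        mul_zero, mul_zero, sub_zero] at h
      exact eq_neg_of_add_eq_zero_right h
    · intro x hx
      obtain ⟨a1, a2, a3⟩ := hne x hx.2
      have g1 := gt_deriv m D N x hD a1 a2 a3
      have g2 : HasDerivAt (fun x : ℝ => ((x : ℝ) : ℂ)) ((1 : ℝ) : ℂ) x :=
        (hasDerivAt_id' x).ofReal_comp
      have g3 := HasDerivAt.fun_mul g2 g1
      refine g3.congr_deriv ?_
      rw [Complex.ofReal_one, one_mul]

end Pool.Agent.D0H44.EM
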