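import Mathlib
import Pool.Agent.D0H44.EM.Ibp

/-! The inner products. -/

open Finset MeasureTheory

namespace Pool.Agent.D0H44.EM

open H343 (ex)
open Pool.Agent.D0H44.EL

theorem ex_mod (q n c : ℕ) (hq : 1 ≤ q) :
    ex ((((n % q) * c : ℕ) : ℝ) / q) = ex (((n * c : ℕ) : ℝ) / q) := by
  have : NeZero q := ⟨by omega⟩
  rw [H343.Gauss.ex_eq_stdAddChar, H343.Gauss.ex_eq_stdAddChar]
  congr 1
  push_cast
  rw [ZMod.natCast_mod]

/-- the Ramanujan sum -/
theorem ram (q c : ℕ) (hq : 1 ≤ q) (hc : c.Coprime q) :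
    ‖∑ a ∈ red q, ex (((a * c : ℕ) : ℝ) / q)‖ ≤ 1 := by
  have : NeZero q := ⟨by omega⟩
  have h1 : ∑ a ∈ red q, ex (((a * c : ℕ) : ℝ) / q) = ∑ b ∈ range q,
      ((1 : DirichletCharacter ℂ q) (b : ZMod q) *
        ZMod.stdAddChar ((c : ZMod q) * (b : ZMod q))) := by
    unfold red
    rw [sum_filter]
    apply sum_congr rfl
    intro b _
    by_cases hb : b.Coprime q
    · rw [if_pos hb, MulChar.one_apply ((ZMod.isUnit_iff_coprime b q).mpr hb), one_mul,
        H343.Gauss.ex_eq_stdAddChar]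
      congr 1
      push_cast
      ring
    · rw [if_neg hb, MulChar.map_nonunit _ (fun hu => hb ((ZMod.isUnit_iff_coprime b _).mp hu)),
        zero_mul]
  obtain ⟨u, hu⟩ : IsUnit (c : ZMod q) := (ZMod.isUnit_iff_coprime c q).mpr hc
  have h2 : ∑ b ∈ range q, ((1 : DirichletCharacter ℂ q) (b : ZMod q) *
        ZMod.stdAddChar ((c : ZMod q) * (b : ZMod q))) =
      gaussSum (1 : DirichletCharacter ℂ q)
        ((ZMod.stdAddChar : AddChar (ZMod q) ℂ).mulShift (u : ZMod q)) := by
    rw [H343.Gauss.sum_range_eq q (fun x => (1 : DirichletCharacter ℂ q) x *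
      ZMod.stdAddChar ((c : ZMod q) * x))]
    unfold gaussSum
    apply sum_congr rfl
    intro x _
    rw [AddChar.mulShift_apply, hu]
  have h3 := gaussSum_mulShift (1 : DirichletCharacter ℂ q)
    (ZMod.stdAddChar : AddChar (ZMod q) ℂ) u
  rw [MulChar.one_apply u.isUnit, one_mul] at h3
  rw [h1, h2, h3, ← H343.Gauss.GS_eq, H343.GS_one q hq]
  rw [Complex.norm_intCast]
  exact_mod_cast ArithmeticFunction.abs_moebius_le_one

/-- the integral of the derivative against a jump -/
theorem ind_int (m D : ℝ) (N : ℕ) (hD : 0 < D) (hN : 1 ≤ N) (v : ℝ) :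
    ∫ x in (m - D)..(m + D), (if v ≤ x then gd m D N x else 0) = -gt m D N v := by
  obtain ⟨h1, -, hi⟩ := ibp m D N hD hN
  have hle : m - D ≤ m + D := by linarith
  have hset : (fun x => if v ≤ x then gd m D N x else 0) = (Set.Ici v).indicator (gd m D N) := by
    funext x
    rw [Set.indicator_apply]
    rfl
  rw [hset, intervalIntegral.integral_of_le hle, setIntegral_indicator measurableSet_Ici]
  rcases le_or_gt v (m - D) with a1 | a1
  · have e : Set.Ioc (m - D) (m + D) ∩ Set.Ici v = Set.Ioc (m - D) (m + D) := by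
      ext x
      simp only [Set.mem_inter_iff, Set.mem_Ioc, Set.mem_Ici]
      constructor
      · rintro ⟨h, -⟩; exact h
      · intro h; exact ⟨h, by linarith [h.1]⟩
    rw [e, ← intervalIntegral.integral_of_le hle, h1 _ le_rfl hle, gt_left m D hD N]
    unfold gt
    rw [kt_zero m D v hD]
    · simp
    · rw [abs_of_nonpos (by linarith)]
      linarith
  rcases le_or_gt v (m + D) with a2 | a2
  · have e : Set.Ioc (m - D) (m + D) ∩ Set.Ici v = Set.Icc v (m + D) := by
      ext x
      simp only [Set.mem_inter_iff, Set.mem_Ioc, Set.mem_Ici, Set.mem_Icc]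
      constructor
      · rintro ⟨h, h'⟩; exact ⟨h', h.2⟩
      · rintro ⟨h, h'⟩; exact ⟨⟨by linarith, h'⟩, h⟩
    rw [e, integral_Icc_eq_integral_Ioc, ← intervalIntegral.integral_of_le a2, h1 v a1.le a2]
  · have e : Set.Ioc (m - D) (m + D) ∩ Set.Ici v = ∅ := by
      ext x
      simp only [Set.mem_inter_iff, Set.mem_Ioc, Set.mem_Ici, Set.mem_empty_iff_false, iff_false]
      rintro ⟨h, h'⟩
      linarith [h.2]
    rw [e, setIntegral_empty]
    unfold gt
    rw [kt_zero m D v hD]
    · simp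
    · rw [abs_of_nonneg (by linarith)]
      linarith

theorem ps_eq (q a M : ℕ) (x : ℝ) (hx : 0 ≤ x) (hM : x ≤ M) :
    ps q a x = ∑ n ∈ (Icc 1 M).filter (fun n => n ≡ a [MOD q]),
      ArithmeticFunction.vonMangoldt n * (if (n : ℝ) ≤ x then 1 else 0) := by
  unfold ps
  simp_rw [mul_ite, mul_one, mul_zero]
  rw [← sum_filter]
  apply sum_congr _ fun _ _ => rfl
  ext n
  simp only [mem_filter, mem_Icc]
  constructor
  · rintro ⟨⟨h1, h2⟩, h3⟩
    have h4 := (Nat.le_floor_iff hx).1 h2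
    refine ⟨⟨⟨h1, ?_⟩, h3⟩, h4⟩
    exact_mod_cast h4.trans hM
  · rintro ⟨⟨⟨h1, h2⟩, h3⟩, h4⟩
    exact ⟨⟨h1, (Nat.le_floor_iff hx).2 h4⟩, h3⟩

theorem ind_ii (m D : ℝ) (N : ℕ) (hD : 0 < D) (v : ℝ) (s t : ℝ) :
    IntervalIntegrable (fun x => if v ≤ x then gd m D N x else 0) volume s t := by
  have hset : (fun x => if v ≤ x then gd m D N x else 0) = (Set.Ici v).indicator (gd m D N) := by
    funext x
    rw [Set.indicator_apply]
    rfl
  rw [hset, intervalIntegrable_iff]
  have h := gd_ii m D N hD s t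
  rw [intervalIntegrable_iff] at h
  exact h.indicator measurableSet_Ici

/-- the inner product for one class -/
theorem one_class (m D : ℝ) (N : ℕ) (hD : 0 < D) (hN : 1 ≤ N) (q a M : ℕ) (h1 : 1 ≤ m - D)
    (h2 : m + D ≤ M) :
    ∫ x in (m - D)..(m + D), ((Er q a x : ℝ) : ℂ) * gd m D N x =
      -∑ n ∈ (Icc 1 M).filter (fun n => n ≡ a [MOD q]),
        ((ArithmeticFunction.vonMangoldt n : ℝ) : ℂ) * gt m D N n +
      (1 / (Nat.totient q : ℂ)) * ∫ x in (m - D)..(m + D), gt m D N x := by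
  obtain ⟨-, hx, hi⟩ := ibp m D N hD hN
  have hle : m - D ≤ m + D := by linarith
  have e1 : ∫ x in (m - D)..(m + D), ((Er q a x : ℝ) : ℂ) * gd m D N x =
      ∫ x in (m - D)..(m + D), ((∑ n ∈ (Icc 1 M).filter (fun n => n ≡ a [MOD q]),
        ((ArithmeticFunction.vonMangoldt n : ℝ) : ℂ) * (if (n : ℝ) ≤ x then gd m D N x else 0)) -
        (1 / (Nat.totient q : ℂ)) * (((x : ℝ) : ℂ) * gd m D N x)) := by
    apply intervalIntegral.integral_congr
    intro x hx'
    rw [Set.uIcc_of_le hle, Set.mem_Icc] at hx'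
    simp only
    unfold Er
    rw [ps_eq q a M x (by linarith [hx'.1]) (by linarith [hx'.2])]
    push_cast
    rw [sub_mul, sum_mul]
    congr 1
    · apply sum_congr rfl
      intro n _
      split_ifs <;> simp
    · ring
  have hid : IntervalIntegrable (fun x : ℝ => ((x : ℝ) : ℂ) * gd m D N x)
        volume (m - D) (m + D) := by
    apply (hi _ _).continuousOn_mul
    exact Complex.continuous_ofReal.continuousOn
  rw [e1, intervalIntegral.integral_sub, intervalIntegral.integral_finsetSum,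
    intervalIntegral.integral_const_mul, hx]
  · simp_rw [intervalIntegral.integral_const_mul, ind_int m D N hD hN]
    simp only [mul_neg, sum_neg_distrib, sub_neg_eq_add]
  · intro n _
    exact (ind_ii m D N hD _ _ _).const_mul _
  · have hs := IntervalIntegrable.sum ((Icc 1 M).filter (fun n => n ≡ a [MOD q]))
      (f := fun (n : ℕ) (x : ℝ) => ((ArithmeticFunction.vonMangoldt n : ℝ) : ℂ) *
        (if (n : ℝ) ≤ x then gd m D N x else 0)) (μ := volume) (a := m - D) (b := m + D)
      (fun n _ => (ind_ii m D N hD _ _ _).const_mul _)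
    have e : (fun x : ℝ => ∑ n ∈ (Icc 1 M).filter (fun n => n ≡ a [MOD q]),
        ((ArithmeticFunction.vonMangoldt n : ℝ) : ℂ) * (if (n : ℝ) ≤ x then gd m D N x else 0)) =
        ∑ n ∈ (Icc 1 M).filter (fun n => n ≡ a [MOD q]), fun x : ℝ =>
        ((ArithmeticFunction.vonMangoldt n : ℝ) : ℂ) * (if (n : ℝ) ≤ x then gd m D N x else 0) := by
      funext x
      rw [Finset.sum_apply]
    rw [e]
    exact hs
  · exact hid.const_mul _

theorem norm_gt_int (m D : ℝ) (N : ℕ) (hD : 0 < D) (hN : 1 ≤ N) :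
    ‖∫ x in (m - D)..(m + D), gt m D N x‖ ≤ (N : ℝ) ^ 2 / (4 * D) := by
  have h1 := gt_int m D hD N hN (m - D) (m + D) (by linarith)
  rwa [gt_left m D hD N, gt_right m D hD N, sub_zero, mul_zero, sub_zero] at h1

/-- regrouping by residue classes -/
theorem regroup (q M c : ℕ) (hq : 1 ≤ q) (f : ℕ → ℂ) :
    ∑ a ∈ red q, ex (((a * c : ℕ) : ℝ) / q) *
      ∑ n ∈ (Icc 1 M).filter (fun n => n ≡ a [MOD q]), f n =
    ∑ n ∈ (Icc 1 M).filter (fun n => n.Coprime q), ex (((n * c : ℕ) : ℝ) / q) * f n := by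
  simp_rw [mul_sum, sum_filter]
  rw [sum_comm]
  apply sum_congr rfl
  intro n _
  by_cases hn : n.Coprime q
  · rw [if_pos hn]
    have hmem : n % q ∈ red q := by
      unfold red
      rw [mem_filter, mem_range]
      refine ⟨Nat.mod_lt _ (by omega), ?_⟩
      rw [Nat.Coprime, ← Nat.gcd_rec, Nat.gcd_comm]
      exact hn
    rw [sum_eq_single_of_mem (n % q) hmem]
    · rw [if_pos (Nat.mod_modEq n q).symm, ex_mod q n c hq]
    · intro b hb hne
      rw [if_neg]
      intro h
      apply hne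
      unfold red at hb
      rw [mem_filter, mem_range] at hb
      have : n % q = b % q := h
      rw [Nat.mod_eq_of_lt hb.1] at this
      exact this.symm
  · rw [if_neg hn]
    apply sum_eq_zero
    intro a ha
    rw [if_neg]
    intro h
    apply hn
    unfold red at ha
    rw [mem_filter] at ha
    have : n % q = a % q := h
    rw [Nat.Coprime, Nat.gcd_comm, Nat.gcd_rec, this, ← Nat.gcd_rec, Nat.gcd_comm]
    exact ha.2

theorem prd : S_PRD := by
  intro q r c j M m D hq hr hc hj hD h1 h2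
  have hN : 1 ≤ r * q := Nat.mul_pos hr hq
  have hφ : 0 < Nat.totient q := Nat.totient_pos.2 hq
  set N := r * q with hNd
  have hq0 : (q : ℝ) ≠ 0 := by positivity
  have hr0 : (r : ℝ) ≠ 0 := by positivity
  have e1 : J m D q r c = -∑ n ∈ (Icc 1 M).filter (fun n => n.Coprime q),
      ((ArithmeticFunction.vonMangoldt n : ℝ) : ℂ) * ex (((n * j : ℕ) : ℝ) / r) *
        ((kt m D n : ℝ) : ℂ) + (∑ a ∈ red q, ex (((a * c : ℕ) : ℝ) / q)) *
        ((1 / (Nat.totient q : ℂ)) * ∫ x in (m - D)..(m + D), gt m D N x) := by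
    unfold J
    have h3 : ∀ a ∈ red q, ∫ x in (m - D)..(m + D), ((Er q a x : ℝ) : ℂ) *
        (ex (((a * c : ℕ) : ℝ) / q) * gd m D (r * q) x) = ex (((a * c : ℕ) : ℝ) / q) *
        (-∑ n ∈ (Icc 1 M).filter (fun n => n ≡ a [MOD q]),
        ((ArithmeticFunction.vonMangoldt n : ℝ) : ℂ) * gt m D N n +
      (1 / (Nat.totient q : ℂ)) * ∫ x in (m - D)..(m + D), gt m D N x) := by
      intro a _
      rw [← one_class m D N hD hN q a M h1 h2, ← intervalIntegral.integral_const_mul]
      apply intervalIntegral.integral_congr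
      intro x _
      simp only
      ring
    rw [sum_congr rfl h3]
    simp_rw [mul_add, mul_neg]
    rw [sum_add_distrib, sum_neg_distrib, regroup q M c hq, ← sum_mul]
    congr 2
    apply sum_congr rfl
    intro n _
    unfold gt
    have h4 : ex (((n * c : ℕ) : ℝ) / q) * ex ((n : ℝ) / (N : ℝ)) = ex (((n * j : ℕ) : ℝ) / r) := by
      rw [← H343.Gauss.ex_add]
      congr 1
      have h5 : ((c : ℝ) * r + 1) = j * q := by exact_mod_cast hj
      rw [hNd]
      push_cast
      field_simp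
      linear_combination (n : ℝ) * h5
    rw [← h4]
    ring
  rw [e1]
  have e2 : ∀ S T : ℂ, -S + T + S = T := fun S T => by ring
  rw [e2, norm_mul, norm_mul]
  have h6 : ‖(1 / (Nat.totient q : ℂ))‖ = 1 / (Nat.totient q : ℝ) := by
    rw [norm_div, norm_one, Complex.norm_natCast]
  rw [h6]
  have h7 := ram q c hq hc
  have h8 := norm_gt_int m D N hD hN
  have h9 : (0 : ℝ) < Nat.totient q := by exact_mod_cast hφ
  calc _ ≤ 1 * (1 / (Nat.totient q : ℝ) * ((N : ℝ) ^ 2 / (4 * D))) := by gcongr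
    _ = _ := by ring

end Pool.Agent.D0H44.EM
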