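import Mathlib
import Pool.Agent.D0H44.EM.Prd
import Pool.Agent.D0H44.EM.Exp
import Pool.Agent.D0H44.EM.Bb

/-! The main estimate. -/

open Finset MeasureTheory

namespace Pool.Agent.D0H44.EM

open H343 (ex)
open Pool.Agent.D0H44.EL
open Pool.Agent.H398R2.BV Pool.Agent.H410R2

/-- the class `c` with `c r ≡ -1 (mod q)` -/
theorem exists_c (q r : ℕ) (hq : 1 ≤ q) (h : r.Coprime q) :
    ∃ c : ℕ, c.Coprime q ∧ q ∣ c * r + 1 := by
  have : NeZero q := ⟨by omega⟩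
  obtain ⟨u, hu⟩ : IsUnit (r : ZMod q) := (ZMod.isUnit_iff_coprime r q).mpr h
  have h1 : IsUnit (-(u⁻¹ : (ZMod q)ˣ) : ZMod q) := (u⁻¹).isUnit.neg
  refine ⟨(-(u⁻¹ : (ZMod q)ˣ) : ZMod q).val, ?_, ?_⟩
  · rw [← ZMod.isUnit_iff_coprime, ZMod.natCast_val, ZMod.cast_id]
    exact h1
  · rw [← ZMod.natCast_eq_zero_iff]
    push_cast
    rw [ZMod.natCast_val, ZMod.cast_id', id, ← hu]
    rw [neg_mul, Units.inv_mul, neg_add_cancel]

/-- the lower bound for one inner product -/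
theorem J_lower (q r c M : ℕ) (m D R : ℝ) (hq : 1 ≤ q) (hr : r.Prime)
    (hc : c.Coprime q) (hcr : q ∣ c * r + 1) (hD : 0 < D) (h1 : 1 ≤ m - D) (h2 : m + D ≤ M)
    (hrR : (r : ℝ) ≤ 2 * R) :
    Mh M m D 0 ≤ 2 * R * (‖J m D q r c‖ + ((r * q : ℕ) : ℝ) ^ 2 / (4 * D) / (Nat.totient q : ℝ) +
      2 * Real.log q * Real.log M) + (TT r (m + D) + 2 * TT r m + TT r (m - D)) / D := by
  obtain ⟨j, hj⟩ := hcr
  have hj' : c * r + 1 = j * q := by rw [hj, mul_comm]
  have hjr : j.Coprime r := by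
    rw [Nat.coprime_comm, Nat.Prime.coprime_iff_not_dvd hr]
    intro hd
    have h3 : r ∣ c * r + 1 := by rw [hj']; exact Dvd.dvd.mul_right hd q
    have h4 : r ∣ 1 := (Nat.dvd_add_right (Dvd.intro_left c rfl)).1 h3
    exact hr.one_lt.ne' (Nat.dvd_one.1 h4)
  have g1 := prd q r c j M m D hq hr.one_le hc hj' hD h1 h2
  have g2 := expp r hr j hjr M m D hD h1 h2
  set S := ∑ n ∈ (Icc 1 M).filter (fun n => n.Coprime q),
    ((ArithmeticFunction.vonMangoldt n : ℝ) : ℂ) * ex (((n * j : ℕ) : ℝ) / r) *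
      ((kt m D n : ℝ) : ℂ) with hS
  set Jr := J m D q r c
  have hM1 : (1 : ℝ) ≤ M := by linarith
  have g3 : ‖Aj M m D r j - S‖ ≤ 2 * Real.log q * Real.log M := by
    have e1 : Aj M m D r j - S = ∑ n ∈ (Icc 1 M).filter (fun n => ¬ n.Coprime q),
        ((ArithmeticFunction.vonMangoldt n : ℝ) : ℂ) * ex (((n * j : ℕ) : ℝ) / r) *
      ((kt m D n : ℝ) : ℂ) := by
      rw [hS]
      unfold Aj
      rw [sub_eq_iff_eq_add, add_comm, sum_filter_add_sum_filter_not]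
    rw [e1]
    refine (norm_sum_le _ _).trans ?_
    calc ∑ n ∈ (Icc 1 M).filter (fun n => ¬ n.Coprime q),
          ‖((ArithmeticFunction.vonMangoldt n : ℝ) : ℂ) * ex (((n * j : ℕ) : ℝ) / r) *
            ((kt m D n : ℝ) : ℂ)‖ ≤
        ∑ n ∈ (Icc 1 M).filter (fun n => ¬ n.Coprime q), ArithmeticFunction.vonMangoldt n := by
          apply sum_le_sum
          intro n _
          rw [norm_mul, norm_mul, H343.Gauss.norm_ex, mul_one, Complex.norm_real,
            Complex.norm_real, Real.norm_of_nonneg ArithmeticFunction.vonMangoldt_nonneg,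
            Real.norm_of_nonneg (kt_nonneg m D n hD)]
          have := kt_le_one m D n hD
          have h0 := ArithmeticFunction.vonMangoldt_nonneg (n := n)
          nlinarith
      _ ≤ q.primeFactors.card * Real.log M := sum_not_coprime M q hq
      _ ≤ (2 * Real.log q) * Real.log M := by
          apply mul_le_mul_of_nonneg_right (omega_le_log q hq) (Real.log_nonneg hM1)
  have g4 : ‖Aj M m D r j‖ ≤ ‖Jr‖ + ((r * q : ℕ) : ℝ) ^ 2 / (4 * D) / (Nat.totient q : ℝ) +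
      2 * Real.log q * Real.log M := by
    have e2 : Aj M m D r j = (Aj M m D r j - S) + ((Jr + S) - Jr) := by ring
    have h5 : ‖Aj M m D r j‖ ≤ ‖Aj M m D r j - S‖ + (‖Jr + S‖ + ‖Jr‖) := by
      conv_lhs => rw [e2]
      exact (norm_add_le _ _).trans (add_le_add_right (norm_sub_le _ _) _)
    linarith
  have g5 : Mh M m D 0 ≤ ‖((r : ℂ) - 1) * Aj M m D r j‖ +
      (TT r (m + D) + 2 * TT r m + TT r (m - D)) / D := by
    have h6 : |Mh M m D 0| ≤ ‖((r : ℂ) - 1) * Aj M m D r j + (Mh M m D 0 : ℂ)‖ +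
        ‖((r : ℂ) - 1) * Aj M m D r j‖ := by
      have e3 : (Mh M m D 0 : ℂ) = (((r : ℂ) - 1) * Aj M m D r j + (Mh M m D 0 : ℂ)) -
          ((r : ℂ) - 1) * Aj M m D r j := by ring
      have h7 : ‖(Mh M m D 0 : ℂ)‖ = |Mh M m D 0| := by
        rw [Complex.norm_real, Real.norm_eq_abs]
      rw [← h7]
      conv_lhs => rw [e3]
      exact norm_sub_le _ _
    have := le_abs_self (Mh M m D 0)
    linarith
  have hr2 : (2 : ℝ) ≤ r := by exact_mod_cast hr.two_le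
  have g6 : ‖((r : ℂ) - 1) * Aj M m D r j‖ ≤ 2 * R * ‖Aj M m D r j‖ := by
    have h8 : ‖(r : ℂ) - 1‖ = r - 1 := by
      have : (r : ℂ) - 1 = (((r : ℝ) - 1 : ℝ) : ℂ) := by push_cast; ring
      rw [this, Complex.norm_real, Real.norm_of_nonneg (by linarith)]
    rw [norm_mul, h8]
    apply mul_le_mul_of_nonneg_right (by linarith) (norm_nonneg _)
  have hR0 : 0 ≤ 2 * R := by linarith
  have g7 := mul_le_mul_of_nonneg_left g4 hR0
  linarith


theorem totient_low' (n : ℕ) : n ≤ (Nat.totient n) ^ 2 * (if 2 ∣ n then 2 else 1) := by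
  induction n using Nat.recOnPosPrimePosCoprime with
  | prime_pow p n hp hn =>
    obtain ⟨k, rfl⟩ : ∃ k, n = k + 1 := ⟨n - 1, by omega⟩
    rw [Nat.totient_prime_pow hp (by omega)]
    simp only [Nat.add_sub_cancel]
    have hk : 1 ≤ p ^ k := Nat.one_le_pow _ _ hp.pos
    rcases hp.eq_two_or_odd' with rfl | h
    · have h2 : 2 ∣ 2 ^ (k + 1) := dvd_pow_self 2 (by omega)
      rw [if_pos h2, pow_succ]
      nlinarith
    · have h3 : 3 ≤ p := by
        have := hp.two_le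
        rcases h with ⟨m, hm⟩
        omega
      obtain ⟨s, rfl⟩ : ∃ s, p = s + 3 := ⟨p - 3, by omega⟩
      have e : s + 3 - 1 = s + 2 := by omega
      rw [e]
      calc (s + 3) ^ (k + 1) = (s + 3) ^ k * (s + 3) := pow_succ _ _
        _ ≤ ((s + 3) ^ k * (s + 3) ^ k) * (s + 2) ^ 2 := by
            apply Nat.mul_le_mul
            · nlinarith
            · nlinarith
        _ = ((s + 3) ^ k * (s + 2)) ^ 2 * 1 := by ring
        _ ≤ _ := by
            apply Nat.mul_le_mul_left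
            split_ifs <;> omega
  | zero => simp
  | one => simp
  | coprime a b ha hb hab iha ihb =>
    rw [Nat.totient_mul hab]
    have hw : (if 2 ∣ a then 2 else 1) * (if 2 ∣ b then 2 else 1) ≤
        (if 2 ∣ a * b then 2 else 1) := by
      by_cases h1 : 2 ∣ a
      · have h2 : ¬ 2 ∣ b := by
          intro h2
          have := Nat.dvd_gcd h1 h2
          rw [hab] at this
          omega
        rw [if_pos h1, if_neg h2, if_pos (Dvd.dvd.mul_right h1 b)]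
      · by_cases h2 : 2 ∣ b
        · rw [if_neg h1, if_pos h2, if_pos (Dvd.dvd.mul_left h2 a)]
        · rw [if_neg h1, if_neg h2, mul_one]
          split_ifs <;> omega
    calc a * b ≤ ((Nat.totient a) ^ 2 * (if 2 ∣ a then 2 else 1)) *
          ((Nat.totient b) ^ 2 * (if 2 ∣ b then 2 else 1)) := Nat.mul_le_mul iha ihb
      _ = (Nat.totient a * Nat.totient b) ^ 2 *
          ((if 2 ∣ a then 2 else 1) * (if 2 ∣ b then 2 else 1)) := by ring
      _ ≤ _ := Nat.mul_le_mul_left _ hw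

/-- crude lower bound for the totient -/
theorem totient_low (q : ℕ) : (q : ℝ) ≤ 2 * (Nat.totient q : ℝ) ^ 2 := by
  have h := totient_low' q
  have h2 : q ≤ 2 * (Nat.totient q) ^ 2 := by
    refine h.trans ?_
    rw [mul_comm]
    apply Nat.mul_le_mul_right
    split_ifs <;> omega
  exact_mod_cast h2

theorem err_small (a q R : ℕ) (t Z : ℝ) (ht : 10 ^ 6 ≤ t) (hZ : Z = t ^ (6 * a + 144))
    (hq : 1 ≤ q) (hR : (R : ℝ) ≤ t ^ (2 * a)) (hRq : (R : ℝ) * q ≤ Z) :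
    2 * (R : ℝ) * ((2 * (R : ℝ) * q) ^ 2 / Z / (Nat.totient q : ℝ)) ≤ Z / 10 ^ 4 := by
  have ht0 : 0 < t := by linarith
  have ht1 : 1 ≤ t := by linarith
  have hZ0 : 0 < Z := by rw [hZ]; positivity
  have hφ : (0 : ℝ) < Nat.totient q := by exact_mod_cast Nat.totient_pos.2 hq
  have hq0 : (0 : ℝ) < q := by exact_mod_cast hq
  have hR0 : (0 : ℝ) ≤ R := Nat.cast_nonneg _
  have hlow := totient_low q
  set φ : ℝ := (Nat.totient q : ℝ) with hφd
  set e := (R : ℝ) ^ 3 * (q : ℝ) ^ 2 / φ with he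
  have he0 : 0 ≤ e := by positivity
  have h1 : e ^ 2 ≤ 2 * ((R : ℝ) ^ 6 * (q : ℝ) ^ 3) := by
    rw [he, div_pow, div_le_iff₀ (by positivity)]
    calc ((R : ℝ) ^ 3 * (q : ℝ) ^ 2) ^ 2 = (R : ℝ) ^ 6 * (q : ℝ) ^ 3 * q := by ring
      _ ≤ (R : ℝ) ^ 6 * (q : ℝ) ^ 3 * (2 * φ ^ 2) := by gcongr
      _ = _ := by ring
  have h2 : (R : ℝ) ^ 6 * (q : ℝ) ^ 3 ≤ t ^ (6 * a) * Z ^ 3 := by
    calc (R : ℝ) ^ 6 * (q : ℝ) ^ 3 = (R : ℝ) ^ 3 * ((R : ℝ) * q) ^ 3 := by ring
      _ ≤ (t ^ (2 * a)) ^ 3 * Z ^ 3 := by gcongr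
      _ = _ := by ring
  have h3 : (e * (10 ^ 5)) ^ 2 ≤ (Z ^ 2) ^ 2 := by
    calc (e * (10 ^ 5)) ^ 2 = e ^ 2 * 10 ^ 10 := by ring
      _ ≤ (2 * (t ^ (6 * a) * Z ^ 3)) * 10 ^ 10 := by
          apply mul_le_mul_of_nonneg_right _ (by norm_num)
          linarith
      _ ≤ (t ^ (6 * a) * Z ^ 3) * t ^ 144 := by
          have : (2 : ℝ) * 10 ^ 10 ≤ t ^ 144 := by
            calc (2 : ℝ) * 10 ^ 10 ≤ (10 ^ 6) ^ 144 := by norm_num
              _ ≤ _ := by gcongr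
          have h0 : 0 ≤ t ^ (6 * a) * Z ^ 3 := by positivity
          nlinarith
      _ = (Z ^ 2) ^ 2 := by
          have : Z ^ 4 = Z ^ 3 * t ^ (6 * a + 144) := by rw [← hZ]; ring
          calc (t ^ (6 * a) * Z ^ 3) * t ^ 144 = Z ^ 3 * t ^ (6 * a + 144) := by ring
            _ = Z ^ 4 := this.symm
            _ = _ := by ring
  have h4 : e * 10 ^ 5 ≤ Z ^ 2 := by
    have := abs_le_of_sq_le_sq' h3 (by positivity)
    exact this.2
  have e5 : 2 * (R : ℝ) * ((2 * (R : ℝ) * q) ^ 2 / Z / φ) = 8 * e / Z := by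
    rw [he]
    field_simp
    ring
  rw [e5, div_le_div_iff₀ hZ0 (by norm_num)]
  nlinarith

theorem e4_arith (g R Z W T l : ℝ) (hZ0 : 0 < Z) (s1 s2 : ℝ) (_hW : W = 0) :
    16 * (s1 * (2 * Z * (s2 * T)) + g * (2 * R * (Z * l))) / Z =
      32 * ((s1 * s2) * T) + 32 * (g * (R * l)) := by
  field_simp
  ring

theorem fin_arith (g R q Z L t V S : ℝ) (hg0 : 0 < g) (hR0 : 0 < R) (hq0 : 0 < q) (hZ0 : 0 < Z)
    (hL0 : 0 < L) (hV0 : 0 ≤ V) (hfin : g * Z ≤ 64 * R * S)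
    (hcs : S ^ 2 ≤ V * ((2 / (Z / 4) ^ 2 + 80 / (R * q) ^ 2) * (q * (g * (Z + g * (4 * R ^ 2))))))
    (hRq : R * q ≤ Z) (c2 : Z + g * (4 * R ^ 2) ≤ 2 * Z) (hg2 : R ≤ 4 * L * g)
    (hLt : 3670016 * L ≤ t) : R * q * Z ≤ t * V := by
  have c1 : 2 / (Z / 4) ^ 2 + 80 / (R * q) ^ 2 ≤ 112 / (R * q) ^ 2 := by
    have h1 : 2 / (Z / 4) ^ 2 = 32 / Z ^ 2 := by field_simp; norm_num
    have h2 : 32 / Z ^ 2 ≤ 32 / (R * q) ^ 2 := by gcongr
    have h3 : 112 / (R * q) ^ 2 = 32 / (R * q) ^ 2 + 80 / (R * q) ^ 2 := by ring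
    rw [h1, h3]
    linarith
  have c3 : S ^ 2 ≤ V * (112 / (R * q) ^ 2 * (q * (g * (2 * Z)))) := by
    refine hcs.trans ?_
    gcongr
  have c4 : V * (112 / (R * q) ^ 2 * (q * (g * (2 * Z)))) =
      224 * V * (g * Z) / (R ^ 2 * q) := by
    field_simp
    ring
  rw [c4, le_div_iff₀ (by positivity)] at c3
  have c5 : (g * Z) ^ 2 * q ≤ 4096 * (224 * V * (g * Z)) := by
    calc (g * Z) ^ 2 * q ≤ (64 * R * S) ^ 2 * q := by gcongr
      _ = 4096 * (S ^ 2 * (R ^ 2 * q)) := by ring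
      _ ≤ _ := by gcongr
  have c6 : g * Z * q ≤ 917504 * V := by
    have hgZ : 0 < g * Z := by positivity
    have : (g * Z) * (g * Z * q) ≤ (g * Z) * (917504 * V) := by
      calc (g * Z) * (g * Z * q) = (g * Z) ^ 2 * q := by ring
        _ ≤ _ := c5
        _ = _ := by ring
    exact le_of_mul_le_mul_left this hgZ
  calc R * q * Z ≤ (4 * L * g) * q * Z := by gcongr
    _ = 4 * L * (g * Z * q) := by ring
    _ ≤ 4 * L * (917504 * V) := by gcongr
    _ = (3670016 * L) * V := by ring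
    _ ≤ t * V := by gcongr

/-- **the main estimate** -/
theorem core (hdua : S_DUA) : ∃ K : ℝ, 1 ≤ K ∧ ∀ (a q R : ℕ) (t L Z : ℝ), 40 ≤ a →
    Z = t ^ (6 * a + 144) → L = 1 + Real.log Z → 10 ^ 6 * L ^ 6 ≤ t → K ≤ t → 1 ≤ q →
    t ^ 4 ≤ R → (R : ℝ) ≤ t ^ (2 * a) → (R : ℝ) * q ≤ Z →
    (R : ℝ) * q * Z ≤ t * ∑ b ∈ red q, ∫ x in (Z / 2)..Z, Er q b x ^ 2 := by
  obtain ⟨R₀, hR₀, hcnt⟩ := cnt
  obtain ⟨C, hC0, hC⟩ := psi_bds (1 / 64) (by norm_num)
  refine ⟨max R₀ (max (1000 * C) 1), le_max_of_le_right (le_max_right _ _), ?_⟩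
  intro a q R t L Z ha hZ hLZ hLt hK hq hR1 hR2 hRq
  have hKR : (R₀ : ℝ) ≤ t := (le_max_left _ _).trans hK
  have hKC : 1000 * C ≤ t := ((le_max_left _ _).trans (le_max_right _ _)).trans hK
  have ht1 : (1 : ℝ) ≤ t := ((le_max_right _ _).trans (le_max_right _ _)).trans hK
  have ht0 : 0 < t := by linarith
  have hZ1 : 1 ≤ Z := by rw [hZ]; exact one_le_pow₀ ht1
  have hZ0 : 0 < Z := by linarith
  have hL1 : 1 ≤ L := by
    have := Real.log_nonneg hZ1
    linarith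
  have ht6 : (10 : ℝ) ^ 6 ≤ t := by
    have : (1 : ℝ) ≤ L ^ 6 := one_le_pow₀ hL1
    linarith
  have htZ : t ^ 4 ≤ Z := by
    rw [hZ]
    exact pow_le_pow_right₀ ht1 (by omega)
  have htZ1 : t ≤ Z := by
    refine le_trans ?_ htZ
    calc t = t ^ 1 := (pow_one t).symm
      _ ≤ _ := pow_le_pow_right₀ ht1 (by omega)
  have hL2 : 2 ≤ L := by
    have h1 : 1 ≤ Real.log Z := by
      rw [Real.le_log_iff_exp_le hZ0]
      have := Real.exp_one_lt_d9
      linarith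
    linarith
  have hL6 : 32 * L ≤ L ^ 6 := by
    calc 32 * L = 2 ^ 5 * L := by norm_num
      _ ≤ L ^ 5 * L := by gcongr
      _ = _ := by ring
  have hLt1 : 32 * 10 ^ 6 * L ≤ t := by linarith
  have hL2t : 10 ^ 6 * L ^ 2 ≤ t := by
    have : L ^ 2 ≤ L ^ 6 := pow_le_pow_right₀ hL1 (by omega)
    linarith
  -- the parameters
  have hRr : (1 : ℝ) ≤ R := (one_le_pow₀ ht1).trans hR1
  have hR3 : 1 ≤ R := by exact_mod_cast hRr
  have hR0 : (0 : ℝ) < R := by linarith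
  have hq0 : (1 : ℝ) ≤ q := by exact_mod_cast hq
  have htR : t ≤ R := by
    refine le_trans ?_ hR1
    calc t = t ^ 1 := (pow_one t).symm
      _ ≤ _ := pow_le_pow_right₀ ht1 (by omega)
  have hRR₀ : R₀ ≤ R := by
    have : (R₀ : ℝ) ≤ R := hKR.trans htR
    exact_mod_cast this
  have hqZ : (q : ℝ) ≤ Z := by
    calc (q : ℝ) = 1 * q := (one_mul _).symm
      _ ≤ R * q := by gcongr
      _ ≤ Z := hRq
  have h2RZ : 10 ^ 6 * (R : ℝ) ≤ Z := by
    rw [hZ]
    calc 10 ^ 6 * (R : ℝ) ≤ t * t ^ (2 * a) := by gcongr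
      _ = t ^ (2 * a + 1) := by ring
      _ ≤ _ := pow_le_pow_right₀ ht1 (by omega)
  have hRZt : (R : ℝ) * t ≤ Z := by
    rw [hZ]
    calc (R : ℝ) * t ≤ t ^ (2 * a) * t := by gcongr
      _ = t ^ (2 * a + 1) := by ring
      _ ≤ _ := pow_le_pow_right₀ ht1 (by omega)
  have hlogq : Real.log q ≤ L - 1 := by
    have := Real.log_le_log (by linarith) hqZ
    linarith
  have hlog2R : Real.log (2 * R) ≤ L - 1 := by
    have := Real.log_le_log (by linarith) (show 2 * (R : ℝ) ≤ Z by linarith)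
    linarith
  set G := (Ioc R (2 * R)).filter (fun r : ℕ => r.Prime ∧ ¬ r ∣ q) with hG
  have hGm : ∀ r ∈ G, r.Prime ∧ R < r ∧ r ≤ 2 * R := by
    intro r hr
    rw [hG, mem_filter, mem_Ioc] at hr
    exact ⟨hr.2.1, hr.1.1, hr.1.2⟩
  have hGd : ∀ r ∈ G, ¬ r ∣ q := by
    intro r hr
    rw [hG, mem_filter] at hr
    exact hr.2.2
  have hGc : (G.card : ℝ) ≤ R := by
    have h1 : G.card ≤ (Ioc R (2 * R)).card := card_le_card (filter_subset _ _)
    rw [Nat.card_Ioc] at h1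
    have : G.card ≤ R := by omega
    exact_mod_cast this
  have hg := hcnt R q L hRR₀ hq (by linarith) (by linarith) (by nlinarith)
  rw [← hG] at hg
  have hg2 : (R : ℝ) ≤ 4 * L * G.card := by
    rw [div_le_iff₀ (by positivity)] at hg
    linarith
  have hg0 : (0 : ℝ) < G.card := lt_of_lt_of_le (by positivity) hg
  -- the classes
  have hex : ∀ r : ℕ, ∃ c : ℕ, r ∈ G → (c.Coprime q ∧ q ∣ c * r + 1) := by
    intro r
    by_cases hr : r ∈ G
    · obtain ⟨c, hc⟩ := exists_c q r hq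
        ((Nat.Prime.coprime_iff_not_dvd (hGm r hr).1).2 (hGd r hr))
      exact ⟨c, fun _ => hc⟩
    · exact ⟨0, fun h => absurd h hr⟩
  choose c hc using hex
  -- the prime number theorem
  set M := ⌈Z⌉₊ with hM
  have hM1 : Z ≤ M := Nat.le_ceil _
  have hM2 : (M : ℝ) ≤ Z + 1 := (Nat.ceil_lt_add_one hZ0.le).le
  have hlogM : Real.log M ≤ 2 * L := by
    have h1 : Real.log M ≤ Real.log (Z * Z) := by
      apply Real.log_le_log (by linarith)
      nlinarith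
    rw [Real.log_mul hZ0.ne' hZ0.ne'] at h1
    linarith
  have e1 : 3 * Z / 4 - Z / 4 = Z / 2 := by ring
  have e2 : 3 * Z / 4 + Z / 4 = Z := by ring
  have hMh1 : Z / 16 ≤ Mh M (3 * Z / 4) (Z / 4) 0 := by
    refine le_trans ?_ (Mh_lower M (3 * Z / 4) (Z / 4) 0 (by linarith) (by linarith)
      (by linarith))
    have g1 := (hC (3 * Z / 4 + Z / 4 / 2 - 0) (by linarith)).1
    have g2 := (hC (3 * Z / 4 - Z / 4 / 2 - 0) (by linarith)).2
    linarith
  -- the sums over the characters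
  set B := Real.sqrt R * t ^ (6 * a + 143) with hB
  have hBb : ∀ y : ℝ, 1 ≤ y → y ≤ Z → ∑ f ∈ Icc 2 (2 * R), ∑ ψ ∈ Prim f, ‖psiLog y f ψ‖ ≤ B :=
    fun y hy1 hy2 => Bb a R t L Z y hZ hL1 hLZ hLt hR1 hR2 hy1 hy2
  set E := Real.sqrt (2 * R) * (2 * Z * B) + G.card * (2 * R * (Z * Real.log Z)) with hE
  have hEb : ∀ Y : ℝ, 1 ≤ Y → Y ≤ Z → ∑ r ∈ G, TT r Y ≤ E :=
    fun Y hY1 hY2 => TT_sum R G hGm Z Y B hY1 hY2 hBb
  -- each inner product
  have hJ : ∀ r ∈ G, Mh M (3 * Z / 4) (Z / 4) 0 ≤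
      2 * R * ‖J (3 * Z / 4) (Z / 4) q r (c r)‖ + Z / 10 ^ 4 + Z / 10 ^ 4 +
      (TT r Z + 2 * TT r (3 * Z / 4) + TT r (Z / 2)) / (Z / 4) := by
    intro r hr
    obtain ⟨hrp, hr1, hr2⟩ := hGm r hr
    obtain ⟨hc1, hc2⟩ := hc r hr
    have hr2' : (r : ℝ) ≤ 2 * R := by exact_mod_cast hr2
    have h := J_lower q r (c r) M (3 * Z / 4) (Z / 4) R hq hrp hc1 hc2 (by linarith)
      (by linarith) (by linarith) hr2'
    rw [e1, e2] at h
    have hφ : (0 : ℝ) < Nat.totient q := by exact_mod_cast Nat.totient_pos.2 hq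
    have k1 : ((r * q : ℕ) : ℝ) ^ 2 / (4 * (Z / 4)) / (Nat.totient q : ℝ) ≤
        (2 * (R : ℝ) * q) ^ 2 / Z / (Nat.totient q : ℝ) := by
      have : 4 * (Z / 4) = Z := by ring
      rw [this]
      push_cast
      gcongr
    have k2 := err_small a q R t Z ht6 hZ hq hR2 hRq
    have k3 : 2 * (R : ℝ) * (((r * q : ℕ) : ℝ) ^ 2 / (4 * (Z / 4)) / (Nat.totient q : ℝ)) ≤
        Z / 10 ^ 4 := le_trans (mul_le_mul_of_nonneg_left k1 (by positivity)) k2
    have k4 : 2 * (R : ℝ) * (2 * Real.log q * Real.log M) ≤ Z / 10 ^ 4 := by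
      have hlq0 : 0 ≤ Real.log q := Real.log_nonneg hq0
      have hlM0 : 0 ≤ Real.log M := Real.log_nonneg (by linarith)
      calc 2 * (R : ℝ) * (2 * Real.log q * Real.log M) ≤ 2 * (R : ℝ) * (2 * L * (2 * L)) := by
            gcongr
            linarith
        _ = (R : ℝ) * (8 * L ^ 2) := by ring
        _ ≤ (R : ℝ) * (t / 10 ^ 4) := by gcongr; linarith
        _ = (R : ℝ) * t / 10 ^ 4 := by ring
        _ ≤ _ := by gcongr
    have k5 : 2 * (R : ℝ) * (‖J (3 * Z / 4) (Z / 4) q r (c r)‖ +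
        ((r * q : ℕ) : ℝ) ^ 2 / (4 * (Z / 4)) / (Nat.totient q : ℝ) +
        2 * Real.log q * Real.log M) = 2 * (R : ℝ) * ‖J (3 * Z / 4) (Z / 4) q r (c r)‖ +
        2 * (R : ℝ) * (((r * q : ℕ) : ℝ) ^ 2 / (4 * (Z / 4)) / (Nat.totient q : ℝ)) +
        2 * (R : ℝ) * (2 * Real.log q * Real.log M) := by ring
    rw [k5] at h
    linarith
  have hsum := sum_le_sum hJ
  simp only [sum_add_distrib, sum_const, nsmul_eq_mul, ← mul_sum, ← sum_div] at hsum
  set S := ∑ r ∈ G, ‖J (3 * Z / 4) (Z / 4) q r (c r)‖ with hS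
  have b1 := hEb Z hZ1 le_rfl
  have b2 := hEb (3 * Z / 4) (by linarith) (by linarith)
  have b3 := hEb (Z / 2) (by linarith) (by linarith)
  have hδ : (∑ r ∈ G, TT r Z + 2 * ∑ r ∈ G, TT r (3 * Z / 4) + ∑ r ∈ G, TT r (Z / 2)) / (Z / 4) ≤
      16 * E / Z := by
    have : 16 * E / Z = (4 * E) / (Z / 4) := by field_simp; ring
    rw [this]
    apply div_le_div_of_nonneg_right _ (by linarith)
    linarith
  have hsqq : Real.sqrt (2 * R) * Real.sqrt R ≤ 2 * R := by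
    have h1 : Real.sqrt (2 * R) ≤ 2 * Real.sqrt R := by
      rw [Real.sqrt_le_left (by positivity), mul_pow, Real.sq_sqrt (by positivity)]
      linarith
    calc Real.sqrt (2 * R) * Real.sqrt R ≤ 2 * Real.sqrt R * Real.sqrt R := by gcongr
      _ = 2 * R := by rw [mul_assoc, Real.mul_self_sqrt (by positivity)]
  have hZt : Z = t ^ (6 * a + 143) * t := by rw [hZ]; ring
  have hEs : 16 * E / Z ≤ G.card * (Z / 1000) + G.card * (Z / 1000) := by
    have e4 : 16 * E / Z = 32 * ((Real.sqrt (2 * R) * Real.sqrt R) * t ^ (6 * a + 143)) +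
        32 * (G.card * (R * Real.log Z)) := by
      rw [hE, hB]
      exact e4_arith _ _ _ 0 _ _ hZ0 _ _ rfl
    rw [e4]
    apply add_le_add
    · have hss : Real.sqrt (2 * R) * Real.sqrt R ≤ 2 * (4 * L * G.card) := by linarith
      calc 32 * ((Real.sqrt (2 * R) * Real.sqrt R) * t ^ (6 * a + 143)) ≤
          32 * ((2 * (4 * L * G.card)) * t ^ (6 * a + 143)) :=
            mul_le_mul_of_nonneg_left (mul_le_mul_of_nonneg_right hss (by positivity))
              (by norm_num)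
        _ = G.card * (t ^ (6 * a + 143) * (256 * L)) := by ring
        _ ≤ G.card * (t ^ (6 * a + 143) * (t / 1000)) := by
            gcongr
            linarith
        _ = G.card * (t ^ (6 * a + 143) * t / 1000) := by ring
        _ = _ := by rw [← hZt]
    · have hlZ : Real.log Z ≤ L := by linarith
      calc 32 * (G.card * (R * Real.log Z)) ≤ 32 * (G.card * (R * L)) := by gcongr
        _ = G.card * (R * (32 * L)) := by ring
        _ ≤ G.card * (R * (t / 1000)) := by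
            gcongr
            linarith
        _ = G.card * (R * t / 1000) := by ring
        _ ≤ _ := by gcongr
  have hfin : G.card * Z ≤ 64 * R * S := by
    have h1 : (G.card : ℝ) * (Z / 16) ≤ G.card * Mh M (3 * Z / 4) (Z / 4) 0 := by gcongr
    have h2 : (G.card : ℝ) * (Z / 16) ≤ 2 * R * S + G.card * (Z / 10 ^ 4) +
        G.card * (Z / 10 ^ 4) + (G.card * (Z / 1000) + G.card * (Z / 1000)) :=
      h1.trans (hsum.trans (add_le_add_right (hδ.trans hEs) _))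
    have h3 : (G.card : ℝ) * (Z / 16) = (G.card * Z) / 16 := by ring
    have h4 : (G.card : ℝ) * (Z / 10 ^ 4) = (G.card * Z) / 10 ^ 4 := by ring
    have h5 : (G.card : ℝ) * (Z / 1000) = (G.card * Z) / 1000 := by ring
    have h6 : 0 ≤ (G.card : ℝ) * Z := by positivity
    rw [h3, h4, h5] at h2
    have h7 : 64 * (R : ℝ) * S = 32 * (2 * R * S) := by ring
    rw [h7]
    linarith
  -- duality
  have hcs := hdua q G R c (3 * Z / 4) (Z / 4) Z hq hR3 (fun r hr => (hGm r hr).2)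
    (fun r hr => (hc r hr).2) (by linarith) (by linarith) (by linarith)
  rw [e1, e2, ← hS] at hcs
  set V := ∑ b ∈ red q, ∫ x in (Z / 2)..Z, Er q b x ^ 2 with hV
  have hV0 : 0 ≤ V := by
    rw [hV]
    apply sum_nonneg
    intro b _
    apply intervalIntegral.integral_nonneg (by linarith)
    intro x _
    positivity
  have c2 : Z + G.card * (4 * (R : ℝ) ^ 2) ≤ 2 * Z := by
    have k3 : (G.card : ℝ) * (4 * (R : ℝ) ^ 2) ≤ Z := by
      calc (G.card : ℝ) * (4 * (R : ℝ) ^ 2) ≤ R * (4 * (R : ℝ) ^ 2) := by gcongr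
        _ = 4 * (R : ℝ) ^ 3 := by ring
        _ ≤ 4 * (t ^ (2 * a)) ^ 3 := by gcongr
        _ ≤ t * (t ^ (2 * a)) ^ 3 := by gcongr; linarith
        _ = t ^ (6 * a + 1) := by ring
        _ ≤ Z := by rw [hZ]; exact pow_le_pow_right₀ ht1 (by omega)
    linarith
  exact fin_arith G.card R q Z L t V S hg0 hR0 (by linarith) hZ0 (by linarith) hV0 hfin hcs
    hRq c2 hg2 (by linarith)

end Pool.Agent.D0H44.EM
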