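import Mathlib
import Pool.Agent.D0H44.EM.Core

/-! The lower bound for every modulus `q ≤ X ^ (1 - ε)`. -/

open Finset MeasureTheory Filter

namespace Pool.Agent.D0H44.EM

/-- the mean square -/
theorem mean_sq (hdua : S_DUA) (ε : ℝ) (hε : 0 < ε) : ∃ X₀ : ℝ, 2 ≤ X₀ ∧ ∀ X : ℝ, X₀ ≤ X →
    ∀ q : ℕ, 1 ≤ q → (q : ℝ) ≤ X ^ (1 - ε) →
    4 * (X ^ (-ε) * min (X / q) (X ^ (1 / 3 : ℝ))) ≤
      1 / X * (1 / (Nat.totient q : ℝ) * ∑ b ∈ red q, ∫ x in X..(2 * X), Er q b x ^ 2) := by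
  obtain ⟨K, hK, hcore⟩ := core hdua
  obtain ⟨n, hn⟩ := exists_nat_gt (60 / ε)
  obtain ⟨a, ha⟩ : ∃ a : ℕ, a = 40 + n := ⟨_, rfl⟩
  obtain ⟨N, hN⟩ : ∃ N : ℕ, N = 6 * a + 144 := ⟨_, rfl⟩
  have hN0 : N ≠ 0 := by omega
  have hNr : (0 : ℝ) < N := by positivity
  have hNε : 60 ≤ ε * N := by
    have h1 : (n : ℝ) ≤ N := by
      have : n ≤ N := by omega
      exact_mod_cast this
    rw [div_lt_iff₀ hε] at hn
    nlinarith
  have ht1 : Tendsto (fun X : ℝ => X ^ ((N : ℝ)⁻¹)) atTop atTop :=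
    tendsto_rpow_atTop (by positivity)
  have ht2 : ∀ᶠ X : ℝ in atTop, 10 ^ 6 * (1 + Real.log X) ^ 6 ≤ X ^ ((N : ℝ)⁻¹) := by
    have h := (isLittleO_log_rpow_atTop (by positivity : (0 : ℝ) < (N : ℝ)⁻¹ / 6)).bound
      (by norm_num : (0 : ℝ) < 1 / 20)
    filter_upwards [h, eventually_ge_atTop (Real.exp 1)] with X hX hX1
    have hX0 : 0 < X := (Real.exp_pos 1).trans_le hX1
    have hl : 1 ≤ Real.log X := by rwa [Real.le_log_iff_exp_le hX0]
    rw [Real.norm_of_nonneg (by linarith), Real.norm_of_nonneg (by positivity)] at hX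
    have h1 : 1 + Real.log X ≤ 1 / 10 * X ^ ((N : ℝ)⁻¹ / 6) := by linarith
    calc 10 ^ 6 * (1 + Real.log X) ^ 6 ≤ 10 ^ 6 * (1 / 10 * X ^ ((N : ℝ)⁻¹ / 6)) ^ 6 := by
          gcongr
      _ = (X ^ ((N : ℝ)⁻¹ / 6)) ^ 6 := by ring
      _ = X ^ ((N : ℝ)⁻¹) := by
          rw [← Real.rpow_natCast, ← Real.rpow_mul hX0.le]
          congr 1
          push_cast
          ring
  obtain ⟨X₁, hX₁⟩ := eventually_atTop.1 ((ht1.eventually_ge_atTop K).and ht2)
  refine ⟨max X₁ 2, le_max_right _ _, fun X hX q hq hqX => ?_⟩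
  have hX1 : X₁ ≤ X := (le_max_left _ _).trans hX
  have hX2 : 2 ≤ X := (le_max_right _ _).trans hX
  have hX0 : 0 < X := by linarith
  have h2X : X₁ ≤ 2 * X := by linarith
  obtain ⟨hKt, hLt⟩ := hX₁ (2 * X) h2X
  obtain ⟨t, ht⟩ : ∃ t : ℝ, t = (2 * X) ^ ((N : ℝ)⁻¹) := ⟨_, rfl⟩
  rw [← ht] at hKt hLt
  have ht1' : 1 ≤ t := hK.trans hKt
  have ht0 : 0 < t := by linarith
  have hlog : 0 ≤ Real.log (2 * X) := Real.log_nonneg (by linarith)
  have ht6 : (10 : ℝ) ^ 6 ≤ t := by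
    have : (1 : ℝ) ≤ (1 + Real.log (2 * X)) ^ 6 := one_le_pow₀ (by linarith)
    linarith
  have hZ : 2 * X = t ^ (6 * a + 144) := by
    rw [ht, ← hN, Real.rpow_inv_natCast_pow (by linarith) hN0]
  have hq0 : (1 : ℝ) ≤ q := by exact_mod_cast hq
  have hqpos : (0 : ℝ) < q := by linarith
  -- powers of t
  have htp : ∀ k : ℕ, t ^ k = (2 * X) ^ ((k : ℝ) / N) := by
    intro k
    rw [ht, ← Real.rpow_natCast, ← Real.rpow_mul (by linarith)]
    congr 1
    ring
  -- small powers of `t` are at most `X ^ ε`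
  have hsm : ∀ k : ℕ, k ≤ 30 → t ^ k ≤ X ^ ε := by
    intro k hk
    rw [htp k]
    have hkr : (k : ℝ) ≤ 30 := by exact_mod_cast hk
    have h1 : (k : ℝ) / N ≤ ε / 2 := by
      rw [div_le_iff₀ hNr]
      linarith
    calc (2 * X) ^ ((k : ℝ) / N) ≤ (X * X) ^ ((k : ℝ) / N) := by
          apply Real.rpow_le_rpow (by linarith) (by nlinarith) (by positivity)
      _ ≤ (X * X) ^ (ε / 2) := by
          apply Real.rpow_le_rpow_of_exponent_le (by nlinarith) h1
      _ = X ^ ε := by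
          rw [Real.mul_rpow hX0.le hX0.le, ← Real.rpow_add hX0]
          congr 1
          ring
  have hXε : X ^ ε * q ≤ X := by
    calc X ^ ε * q ≤ X ^ ε * X ^ (1 - ε) := by gcongr
      _ = X := by
        rw [← Real.rpow_add hX0, add_sub_cancel, Real.rpow_one]
  have ht5 : t ^ 5 ≤ 2 * X / q := by
    rw [le_div_iff₀ hqpos]
    have h1 := hsm 5 (by norm_num)
    calc t ^ 5 * q ≤ X ^ ε * q := by gcongr
      _ ≤ X := hXε
      _ ≤ 2 * X := by linarith
  have ht5' : t ^ 5 ≤ t ^ (2 * a) := pow_le_pow_right₀ ht1' (by omega)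
  -- the parameter R
  obtain ⟨ρ, hρ⟩ : ∃ ρ : ℝ, ρ = min (t ^ (2 * a)) (2 * X / q) := ⟨_, rfl⟩
  have hρ5 : t ^ 5 ≤ ρ := by rw [hρ]; exact le_min ht5' ht5
  have hρ0 : 0 < ρ := lt_of_lt_of_le (by positivity) hρ5
  have ht45 : t ^ 4 + 1 ≤ t ^ 5 := by
    have h1 : t ^ 5 = t ^ 4 * t := by ring
    have h2 : 1 ≤ t ^ 4 := one_le_pow₀ ht1'
    rw [h1]
    nlinarith
  set R := ⌊ρ⌋₊ with hR
  have hR1 : (R : ℝ) ≤ ρ := Nat.floor_le hρ0.le
  have hR2 : ρ < R + 1 := Nat.lt_floor_add_one ρ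
  have hRt4 : t ^ 4 ≤ R := by linarith
  have hRt2a : (R : ℝ) ≤ t ^ (2 * a) := hR1.trans (by rw [hρ]; exact min_le_left _ _)
  have hRq : (R : ℝ) * q ≤ 2 * X := by
    have h1 : (R : ℝ) ≤ 2 * X / q := hR1.trans (by rw [hρ]; exact min_le_right _ _)
    rwa [le_div_iff₀ hqpos] at h1
  have hRρ : ρ ≤ 2 * R := by
    have : (1 : ℝ) ≤ R := (one_le_pow₀ ht1').trans hRt4
    linarith
  have h := hcore a q R t (1 + Real.log (2 * X)) (2 * X) (by omega) hZ rfl hLt hKt hq hRt4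
    hRt2a hRq
  rw [mul_div_cancel_left₀ X (by norm_num : (2 : ℝ) ≠ 0)] at h
  set V := ∑ b ∈ red q, ∫ x in X..(2 * X), Er q b x ^ 2 with hV
  have hφ : (0 : ℝ) < Nat.totient q := by exact_mod_cast Nat.totient_pos.2 hq
  have hφq : (Nat.totient q : ℝ) ≤ q := by exact_mod_cast Nat.totient_le q
  -- lower bound for the mean square
  have hlow : ρ / t ≤ 1 / X * (1 / (Nat.totient q : ℝ) * V) := by
    have h1 : (R : ℝ) * q * (2 * X) / t ≤ V := by
      rw [div_le_iff₀ ht0]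
      linarith
    calc ρ / t ≤ 2 * R / t := by gcongr
      _ = 1 / X * (1 / q * ((R : ℝ) * q * (2 * X) / t)) := by
          field_simp
      _ ≤ 1 / X * (1 / (Nat.totient q : ℝ) * V) := by
          gcongr
  refine le_trans ?_ hlow
  have h4t : 4 ≤ t := by linarith
  have hX0ε : 0 < X ^ ε := by positivity
  rw [le_div_iff₀ ht0, Real.rpow_neg hX0.le, hρ]
  have htt : t * 4 ≤ X ^ ε := by
    have h1 := hsm 2 (by norm_num)
    nlinarith
  apply le_min
  · -- `t ^ (2 a)`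
    have h1 : X ^ (1 / 3 : ℝ) ≤ t ^ (2 * a) * t ^ 48 := by
      have e1 : t ^ (2 * a) * t ^ 48 = (2 * X) ^ (1 / 3 : ℝ) := by
        rw [← pow_add, htp]
        congr 1
        rw [hN]
        push_cast
        have : (6 * (a : ℝ) + 144) ≠ 0 := by positivity
        field_simp
        ring
      rw [e1]
      apply Real.rpow_le_rpow hX0.le (by linarith) (by norm_num)
    have h2 : t ^ 48 * (t * 4) ≤ X ^ ε := by
      have h3 : t ^ 50 ≤ X ^ ε := by
        rw [htp 50]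
        have h1 : ((50 : ℕ) : ℝ) / N ≤ ε * (5 / 6) := by
          rw [div_le_iff₀ hNr]
          push_cast
          linarith
        have h5 : (2 : ℝ) ^ 6 * X ^ 5 ≤ X ^ 6 ∨ X < 64 := by
          by_cases hx : X < 64
          · exact Or.inr hx
          · left
            push Not at hx
            have : 0 < X ^ 5 := by positivity
            calc (2 : ℝ) ^ 6 * X ^ 5 ≤ X * X ^ 5 := by gcongr; linarith
              _ = _ := by ring
        have hX64 : 64 ≤ X := by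
          have h6 : t ^ 1 ≤ 2 * X := by
            rw [hZ]
            exact pow_le_pow_right₀ ht1' (by omega)
          rw [pow_one] at h6
          linarith
        have h7 : (2 * X) ≤ X ^ (6 / 5 : ℝ) := by
          have h8 : (2 : ℝ) ≤ X ^ (1 / 5 : ℝ) := by
            calc (2 : ℝ) = ((2 : ℝ) ^ (5 : ℝ)) ^ (1 / 5 : ℝ) := by
                  rw [← Real.rpow_mul (by norm_num)]
                  norm_num
              _ ≤ X ^ (1 / 5 : ℝ) := by
                  apply Real.rpow_le_rpow (by positivity) _ (by norm_num)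
                  norm_num
                  linarith
          calc 2 * X ≤ X ^ (1 / 5 : ℝ) * X := by gcongr
            _ = X ^ (1 / 5 : ℝ) * X ^ (1 : ℝ) := by rw [Real.rpow_one]
            _ = _ := by rw [← Real.rpow_add hX0]; norm_num
        calc (2 * X) ^ (((50 : ℕ) : ℝ) / N) ≤ (2 * X) ^ (ε * (5 / 6)) := by
              apply Real.rpow_le_rpow_of_exponent_le (by linarith) h1
          _ ≤ (X ^ (6 / 5 : ℝ)) ^ (ε * (5 / 6)) := by
              apply Real.rpow_le_rpow (by linarith) h7 (by positivity)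
          _ = X ^ ε := by
              rw [← Real.rpow_mul hX0.le]
              congr 1
              ring
      calc t ^ 48 * (t * 4) ≤ t ^ 48 * (t * t) := by gcongr
        _ = t ^ 50 := by ring
        _ ≤ _ := h3
    calc 4 * ((X ^ ε)⁻¹ * min (X / q) (X ^ (1 / 3 : ℝ))) * t ≤
        4 * ((X ^ ε)⁻¹ * (t ^ (2 * a) * t ^ 48)) * t := by
          gcongr
          exact (min_le_right _ _).trans h1
      _ = t ^ (2 * a) * ((t ^ 48 * (t * 4)) / X ^ ε) := by
          field_simp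
      _ ≤ t ^ (2 * a) * 1 := by
          gcongr
          rw [div_le_one hX0ε]
          exact h2
      _ = _ := mul_one _
  · calc 4 * ((X ^ ε)⁻¹ * min (X / q) (X ^ (1 / 3 : ℝ))) * t ≤
        4 * ((X ^ ε)⁻¹ * (X / q)) * t := by
          gcongr
          exact min_le_left _ _
      _ = (X / q) * ((t * 4) / X ^ ε) := by
          field_simp
      _ ≤ (X / q) * 1 := by
          gcongr
          rw [div_le_one hX0ε]
          exact htt
      _ ≤ 2 * X / q := by
          rw [mul_one]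
          gcongr
          linarith

end Pool.Agent.D0H44.EM
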